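import Pool.Agent.H148N.Tr
import Pool.Agent.Y213.EC.Final

set_option autoImplicit false

/-! Closed subvarieties of `E ^ r × ℙ ^ n` with fibres of dimension at most `e`: the main estimate. -/

namespace Pool.Agent.H148N

open MvPolynomial NumberField
open Pool.Agent.Y213.EC Pool.Agent.H901R3.MS

open Pool.Agent.W659.SA (vec)

open scoped LinearAlgebra.Projectivization

/-- equations modulo all large primes, of degree `D`, for all sets of `m` coordinates -/
def ModP {K : Type} [Field K] [NumberField K] {r n q : ℕ} (a b : 𝓞 K)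
    (G : Fin q → Pol (𝓞 K) r n) (m D : ℕ) : Prop :=
  ∀ (p : ℕ) [Fact p.Prime], D ≤ p → ∀ (φ : 𝓞 K →+* ZMod p)
    (V : Fin r → Fin 3 → ZMod p), (∀ i, OnK (φ a) (φ b) (V i)) →
    ∀ J : Finset (Fin n), J.card = m → ∃ R : MvPolynomial (Fin n) (ZMod p), R ≠ 0 ∧
      R.support ⊆ Finset.finsuppAntidiag J D ∧
      ∀ x : Fin n → ZMod p, (∀ j, vl φ (G j) V x = 0) → eval x R = 0

theorem coreN (K : Type) [Field K] [NumberField K] (N : ℕ) (ω : Module.Basis (Fin N) ℤ (𝓞 K))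
    (r n q : ℕ) (a b : 𝓞 K) (hd : Disc (a : K) (b : K)) (G : Fin q → Pol (𝓞 K) r n)
    (d : Fin q → Fin r → ℕ) (hG : ∀ e, MHomog (G e) (d e)) (m D : ℕ) (hm : 1 ≤ m)
    (hns : ModP a b G m D) (ε : ℝ) (hε : 0 < ε) :
    ∃ H₀ : ℕ, 3 ≤ H₀ ∧ ∀ H : ℕ, H₀ ≤ H →
      ∃ FF : Finset ((J : Finset (Fin n)) → MvPolynomial (Fin n) K),
      (FF.card : ℝ) ≤ (H : ℝ) ^ ε ∧
      (∀ f ∈ FF, ∀ J : Finset (Fin n), J.card = m →
        f J ≠ 0 ∧ (f J).support ⊆ Finset.finsuppAntidiag J D) ∧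
      ∀ c : Fin n × Fin N → ℤ, (∀ i, |c i| ≤ H) → Good ω a b G c →
        ∃ f ∈ FF, ∀ J : Finset (Fin n), J.card = m →
          eval (fun i => ((vec ω c i : 𝓞 K) : K)) (f J) = 0 := by
  classical
  obtain ⟨R, hcl⟩ := classes K r a b hd
  have hdet := fun J : Finset (Fin n) => Pool.Agent.W305.SA.DET.main K N ω n
    (Finset.finsuppAntidiag J D)
  choose C₀ hC1 hC using hdet
  set C : ℕ := ∑ J, C₀ J with hCdef
  have hCJ : ∀ J, C₀ J ≤ C := fun J =>
    Finset.single_le_sum (f := C₀) (fun _ _ => Nat.zero_le _) (Finset.mem_univ J)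
  obtain ⟨H₀, hH₀, hmain⟩ := primesE K a b hd D R C ε hε
  refine ⟨H₀, hH₀, fun H hH => ?_⟩
  obtain ⟨T, L, hL, hT, hprod, hLR⟩ := hmain H hH
  obtain ⟨Q, _, hQ, cls, hcls⟩ := hcl L hL
  have key : ∀ (x : Q) (J : Finset (Fin n)), ∃ f : MvPolynomial (Fin n) K, J.card = m →
      (f ≠ 0 ∧ f.support ⊆ Finset.finsuppAntidiag J D) ∧
      ∀ c : Fin n × Fin N → ℤ, (∀ i, |c i| ≤ H) →
        (∃ V : Fin r → Fin 3 → K, (∀ i, OnK (a : K) (b : K) (V i)) ∧ cls V = x ∧
          ∀ e, vl (algebraMap (𝓞 K) K) (G e) V (fun i => ((vec ω c i : 𝓞 K) : K)) = 0) →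
        eval (fun i => ((vec ω c i : 𝓞 K) : K)) f = 0 := by
    intro x J
    by_cases hJ : J.card = m
    swap
    · exact ⟨0, fun h => absurd h hJ⟩
    obtain ⟨j₀, hj₀⟩ : J.Nonempty := Finset.card_pos.1 (by omega)
    obtain ⟨f, hf0, hfΛ, hf⟩ := hC J H T (fun p hp => by
        obtain ⟨_, hF, _⟩ := hT p hp
        exact hF.out) (lt_of_le_of_lt (by
          have h1 := hCJ J
          have h2 : 1 ≤ C * (H + 1) := Nat.mul_pos ((hC1 J).trans h1) (Nat.succ_pos _)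
          calc (C₀ J * (H + 1)) ^ C₀ J ≤ (C * (H + 1)) ^ C₀ J :=
                Nat.pow_le_pow_left (Nat.mul_le_mul_right _ h1) _
            _ ≤ (C * (H + 1)) ^ C := Nat.pow_le_pow_right h2 h1) hprod)
      {c | (∀ i, |c i| ≤ H) ∧ ∃ V : Fin r → Fin 3 → K, (∀ i, OnK (a : K) (b : K) (V i)) ∧
        cls V = x ∧
        ∀ e, vl (algebraMap (𝓞 K) K) (G e) V (fun i => ((vec ω c i : 𝓞 K) : K)) = 0}
      (fun c hc => hc.1) (by
        intro p hp
        obtain ⟨hp1, hF, φ, hdφ, hkill⟩ := hT p hp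
        haveI := hF
        obtain ⟨V', hV'⟩ := hcls p φ hdφ hkill
        by_cases hne : ∃ V : Fin r → Fin 3 → K, (∀ i, OnK (a : K) (b : K) (V i)) ∧ cls V = x
        · obtain ⟨V₀, hV₀, hx₀⟩ := hne
          have h3 := (hV' V₀ hV₀).1
          rw [hx₀] at h3
          obtain ⟨g, hg0, hgs, hg⟩ := hns p hp1 φ (V' x) h3 J hJ
          refine ⟨ZMod p, inferInstance, inferInstance, φ, g, hg0, hgs, ?_⟩
          rintro c ⟨_, V, hV, hx, hc⟩
          refine hg _ fun e => ?_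
          obtain ⟨_, v, z, hv, hz, hval⟩ := hV' V hV
          have h5 := (hval n (G e) (d e) (hG e) (vec ω c)).2
          rw [hc e, mul_zero, Place.r_zero, hx] at h5
          exact h5.symm
        · refine ⟨ZMod p, inferInstance, inferInstance, φ, X j₀ ^ D, pow_ne_zero _ (X_ne_zero _),
            ?_, ?_⟩
          · intro ν hν
            rw [X_pow_eq_monomial] at hν
            have h8 := support_monomial_subset hν
            rw [Finset.mem_singleton] at h8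
            subst h8
            rw [Finset.mem_finsuppAntidiag]
            constructor
            · rw [Finset.sum_eq_single j₀]
              · rw [Finsupp.single_eq_same]
              · intro k _ hk
                rw [Finsupp.single_eq_of_ne hk]
              · intro h
                exact absurd hj₀ h
            · refine Finsupp.support_single_subset.trans ?_
              rw [Finset.singleton_subset_iff]
              exact hj₀
          · rintro c ⟨_, V, hV, hx, hc⟩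
            exact absurd ⟨V, hV, hx⟩ hne)
    exact ⟨f, fun _ => ⟨⟨hf0, hfΛ⟩, fun c hc h => hf c ⟨hc, h⟩⟩⟩
  choose f hf using key
  refine ⟨Finset.univ.image f, ?_, ?_, ?_⟩
  · refine le_trans ?_ hLR
    have h1 : (Finset.univ.image f).card ≤ L ^ R := (Finset.card_image_le).trans hQ
    exact_mod_cast h1
  · intro g hg J hJ
    rw [Finset.mem_image] at hg
    obtain ⟨x, _, rfl⟩ := hg
    exact (hf x J hJ).1
  · rintro c hc ⟨V, hV, h⟩
    exact ⟨f (cls V), Finset.mem_image_of_mem _ (Finset.mem_univ _), fun J hJ =>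
      (hf (cls V) J hJ).2 c hc ⟨V, hV, rfl, h⟩⟩

/-- `Z` is contained in a closed subset of dimension at most `e` with equations of degree `D`: any
`e + 2` of the homogeneous coordinates satisfy a nonzero homogeneous equation of degree `D` on `Z` -/
def DimDegLE {K : Type} [Field K] {n : ℕ} (e D : ℕ) (Z : Set (ℙ K (Fin (n + 1) → K))) : Prop :=
  ∀ J : Finset (Fin (n + 1)), J.card = e + 2 → ∃ f : MvPolynomial (Fin (n + 1)) K,
    f ≠ 0 ∧ f.IsHomogeneous D ∧ f.vars ⊆ J ∧ ∀ y ∈ Z, eval y.rep f = 0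

theorem homog_vars {K : Type} [Field K] {n D : ℕ} {J : Finset (Fin n)} {f : MvPolynomial (Fin n) K}
    (h : f.support ⊆ Finset.finsuppAntidiag J D) : f.IsHomogeneous D ∧ f.vars ⊆ J := by
  constructor
  · refine homog_of_supp (h.trans ?_)
    intro ν hν
    rw [Finset.mem_finsuppAntidiag] at hν ⊢
    refine ⟨?_, Finset.subset_univ _⟩
    rw [← hν.1]
    symm
    refine Finset.sum_subset (Finset.subset_univ _) fun k _ hk => ?_
    by_contra hne
    exact hk (hν.2 (Finsupp.mem_support_iff.2 hne))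
  · intro i hi
    rw [mem_vars] at hi
    obtain ⟨ν, hν, hi⟩ := hi
    exact (Finset.mem_finsuppAntidiag.1 (h hν)).2 hi

theorem supp_of_homog_vars {K : Type} [Field K] {n D : ℕ} {J : Finset (Fin n)}
    {f : MvPolynomial (Fin n) K} (h : f.IsHomogeneous D) (hJ : f.vars ⊆ J) :
    f.support ⊆ Finset.finsuppAntidiag J D := by
  intro ν hν
  have h1 := Finset.mem_finsuppAntidiag.1 (supp_of_homog h hν)
  have h2 : ν.support ⊆ J := fun i hi => hJ (mem_vars i |>.2 ⟨ν, hν, hi⟩)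
  rw [Finset.mem_finsuppAntidiag]
  refine ⟨?_, h2⟩
  rw [← h1.1]
  refine Finset.sum_subset (Finset.subset_univ _) fun k _ hk => ?_
  by_contra hne
  exact hk (h2 (Finsupp.mem_support_iff.2 hne))

theorem disc_K {K : Type} [Field K] [NumberField K] (a b : 𝓞 K)
    (hd : 4 * a ^ 3 + 27 * b ^ 2 ≠ 0) : Disc (a : K) (b : K) := by
  intro h
  apply hd
  have h1 : (2 * (4 * a ^ 3 + 27 * b ^ 2) : 𝓞 K) = 0 := by
    apply RingOfIntegers.ext
    have h2 : ((2 * (4 * a ^ 3 + 27 * b ^ 2) : 𝓞 K) : K) =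
        2 * (4 * (a : K) ^ 3 + 27 * (b : K) ^ 2) := by
      simp only [map_mul, map_add, map_pow, map_ofNat]
    rw [h2]
    exact h
  exact (mul_eq_zero.1 h1).resolve_left two_ne_zero

theorem partN (K : Type) [Field K] [NumberField K] (r n q : ℕ) (a b : 𝓞 K)
    (hd : 4 * a ^ 3 + 27 * b ^ 2 ≠ 0) (G : Fin q → Pol (𝓞 K) r (n + 1))
    (d : Fin q → Fin r → ℕ) (k : Fin q → ℕ) (hG : ∀ e, MHomog (G e) (d e))
    (hX : ∀ e, XHomog (G e) (k e)) (e D : ℕ) (hns : ModP a b G (e + 2) D)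
    (ε : ℝ) (hε : 0 < ε) :
    ∃ C : ℝ, ∀ B : ℝ, 1 ≤ B → ∃ 𝒵 : Finset (Set (ℙ K (Fin (n + 1) → K))),
      (𝒵.card : ℝ) ≤ C * B ^ ε ∧ (∀ Z ∈ 𝒵, DimDegLE e D Z) ∧
      ∀ y ∈ Img a b G, y.mulHeight ≤ B → ∃ Z ∈ 𝒵, y ∈ Z := by
  classical
  have hdK : Disc (a : K) (b : K) := disc_K a b hd
  obtain ⟨N, ω, C, hC0, hC⟩ := reduce K (n + 1)
  set ε' : ℝ := ε / (((n + 1 : ℕ) : ℝ) + 1) with hε'
  have hε'0 : 0 < ε' := by positivity
  obtain ⟨H₀, hH₀, hmain⟩ := coreN K N ω r (n + 1) q a b hdK G d hG (e + 2) D (by omega) hns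
    ε' hε'0
  refine ⟨(C + 1 + H₀) ^ ε', fun B hB => ?_⟩
  set H : ℕ := ⌈C * B ^ (n + 1 + 1)⌉₊ + H₀ with hH
  have hB' : (1 : ℝ) ≤ B ^ (n + 1 + 1) := one_le_pow₀ hB
  have hHle : (H : ℝ) ≤ (C + 1 + H₀) * B ^ (n + 1 + 1) := by
    have h1 := (Nat.ceil_lt_add_one (by positivity : 0 ≤ C * B ^ (n + 1 + 1))).le
    have h2 : (0 : ℝ) ≤ H₀ := Nat.cast_nonneg _
    rw [hH]
    push_cast
    nlinarith
  have hHge : C * B ^ (n + 1 + 1) ≤ H := by
    rw [hH]
    push_cast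
    have h1 := Nat.le_ceil (C * B ^ (n + 1 + 1))
    have h2 : (0 : ℝ) ≤ H₀ := Nat.cast_nonneg _
    linarith
  obtain ⟨FF, hFF1, hFF2, hFF3⟩ := hmain H (by omega)
  refine ⟨FF.image fun f => {y | ∀ J : Finset (Fin (n + 1)), J.card = e + 2 →
    eval y.rep (f J) = 0}, ?_, ?_, ?_⟩
  · refine le_trans ?_ (hFF1.trans (rpow_bound (n + 1) C B ε hC0 hB hε H₀ H hHle))
    exact_mod_cast Finset.card_image_le
  · intro Z hZ J hJ
    obtain ⟨f, hf, rfl⟩ := Finset.mem_image.1 hZ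
    obtain ⟨h1, h2⟩ := hFF2 f hf J hJ
    exact ⟨f J, h1, (homog_vars h2).1, (homog_vars h2).2, fun y hy => hy J hJ⟩
  · rintro y ⟨V, hV, hy⟩ hyB
    obtain ⟨c, u, hu, hcu, hcB⟩ := hC B y hyB
    obtain ⟨f, hf, hf0⟩ := hFF3 c (by
      intro i
      have h1 : |(c i : ℝ)| ≤ H := (hcB i).trans hHge
      exact_mod_cast h1) ⟨V, hV, by
        intro e
        have h1 := hy e
        simp only [hcu]
        rw [vl_xscale _ (G e) (k e) (hX e), h1, mul_zero]⟩
    refine ⟨_, Finset.mem_image_of_mem _ hf, fun J hJ => ?_⟩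
    have h1 : (fun i => ((vec ω c i : 𝓞 K) : K)) = u • y.rep := by
      funext i
      rw [hcu i]
      rfl
    have h3 := hf0 J hJ
    rw [h1, eval_smul (f J) (homog_vars (hFF2 f hf J hJ).2).1] at h3
    rcases mul_eq_zero.1 h3 with h2 | h2
    · exact absurd h2 (pow_ne_zero _ hu)
    · exact h2

end Pool.Agent.H148N
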