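import Pool.Agent.H148N.Count
import Pool.Agent.H148N.Core

set_option autoImplicit false

/-! The number of the points of a grid on few closed subsets of dimension at most `e`. -/

namespace Pool.Agent.H148N

open MvPolynomial

open Pool.Agent.Y213.EC (eval_smul)

open scoped LinearAlgebra.Projectivization

/-- the point `(1 : t_1 : … : t_n)` -/
noncomputable def aff {K : Type} [Field K] {n : ℕ} (t : Fin n → K) : ℙ K (Fin (n + 1) → K) :=
  Projectivization.mk K (Fin.cons 1 t) (fun h => one_ne_zero (congrFun h 0 : (1 : K) = 0))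

theorem aff_rep {K : Type} [Field K] {n : ℕ} (t : Fin n → K) :
    ∃ u : K, u ≠ 0 ∧ (aff t).rep = u • (Fin.cons 1 t : Fin (n + 1) → K) := by
  obtain ⟨u, hu⟩ := Projectivization.exists_smul_eq_mk_rep K (Fin.cons 1 t : Fin (n + 1) → K)
    (fun h => one_ne_zero (congrFun h 0 : (1 : K) = 0))
  exact ⟨u, u.ne_zero, hu.symm⟩

theorem dehom {K : Type} [Field K] [Infinite K] {n D : ℕ} (J' : Finset (Fin n))
    (f : MvPolynomial (Fin (n + 1)) K) (hf0 : f ≠ 0) (hfh : f.IsHomogeneous D)
    (hfv : f.vars ⊆ insert 0 (J'.map (Fin.succEmb n))) :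
    ∃ g : MvPolynomial J' K, g ≠ 0 ∧ g.totalDegree ≤ D ∧
      ∀ t : Fin n → K, eval (fun k : J' => t k) g = eval (Fin.cons 1 t : Fin (n + 1) → K) f := by
  classical
  set F : Fin (n + 1) → MvPolynomial J' K :=
    Fin.cons 1 (fun j => if h : j ∈ J' then X ⟨j, h⟩ else 0) with hF
  have hev : ∀ t : Fin n → K, eval (fun k : J' => t k) (aeval F f) =
      eval (Fin.cons 1 t : Fin (n + 1) → K) f := by
    intro t
    have h1 : eval (fun k : J' => t k) (aeval F f) =
        eval (fun i => eval (fun k : J' => t k) (F i)) f := by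
      have h2 : ((eval (fun k : J' => t k)).comp
          (aeval F : MvPolynomial (Fin (n + 1)) K →ₐ[K] MvPolynomial J' K).toRingHom) =
          eval (fun i => eval (fun k : J' => t k) (F i)) := by
        apply MvPolynomial.ringHom_ext
        · intro z
          simp
        · intro k
          simp
      exact DFunLike.congr_fun h2 f
    rw [h1]
    refine eval₂Hom_congr' rfl (fun i hi _ => ?_) rfl
    have h3 := hfv hi
    rw [Finset.mem_insert, Finset.mem_map] at h3
    rcases h3 with rfl | ⟨j, hj, rfl⟩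
    · simp [hF]
    · simp [hF, hj]
  refine ⟨aeval F f, ?_, ?_, hev⟩
  · intro h0
    apply hf0
    have h1 : X 0 * f = 0 := by
      apply MvPolynomial.funext
      intro x
      rw [map_mul, eval_X, map_zero]
      by_cases hx : x 0 = 0
      · rw [hx, zero_mul]
      · have h2 := hev (fun j => x j.succ / x 0)
        rw [h0, map_zero] at h2
        have h3 : x = x 0 • (Fin.cons 1 (fun j : Fin n => x j.succ / x 0) : Fin (n + 1) → K) := by
          funext i
          refine Fin.cases ?_ (fun j => ?_) i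
          · simp
          · simp only [Pi.smul_apply, Fin.cons_succ, smul_eq_mul]
            field_simp
        rw [h3, eval_smul f hfh, ← h2, mul_zero, mul_zero]
    exact (mul_eq_zero.1 h1).resolve_left (X_ne_zero _)
  · refine (totalDegree_aeval_le' f F fun k => ?_).trans hfh.totalDegree_le
    refine Fin.cases ?_ (fun j => ?_) k
    · simp [hF]
    · simp only [hF, Fin.cons_succ]
      split_ifs with h
      · rw [totalDegree_X]
      · simp

/-- few closed subsets of dimension at most `e` contain few points of a grid -/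
theorem grid_bound (K : Type) [Field K] [Infinite K] (n e D : ℕ) : ∃ C : ℕ,
    ∀ (𝒵 : Finset (Set (ℙ K (Fin (n + 1) → K)))), (∀ Z ∈ 𝒵, DimDegLE e D Z) →
    ∀ S : Finset K, S.Nonempty → ∀ T : Set (Fin n → K), (∀ t ∈ T, ∀ i, t i ∈ S) →
      (∀ t ∈ T, ∃ Z ∈ 𝒵, aff t ∈ Z) → T.ncard ≤ 𝒵.card * (C * S.card ^ e) := by
  classical
  obtain ⟨C, hC⟩ := count K n e D
  refine ⟨C, fun 𝒵 h𝒵 S hS T hT1 hT2 => ?_⟩
  have hone : ∀ Z ∈ 𝒵, ((grid n S).filter fun t => aff t ∈ Z).card ≤ C * S.card ^ e := by
    intro Z hZ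
    have hg : ∀ J' : Finset (Fin n), ∃ g : MvPolynomial J' K, J'.card = e + 1 →
        (g ≠ 0 ∧ g.totalDegree ≤ D) ∧ ∀ t : Fin n → K, aff t ∈ Z →
          eval (fun k : J' => t k) g = 0 := by
      intro J'
      by_cases hJ : J'.card = e + 1
      swap
      · exact ⟨0, fun h => absurd h hJ⟩
      have hcard : (insert 0 (J'.map (Fin.succEmb n)) : Finset (Fin (n + 1))).card = e + 2 := by
        rw [Finset.card_insert_of_notMem, Finset.card_map, hJ]
        rw [Finset.mem_map]
        rintro ⟨j, _, hj⟩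
        exact Fin.succ_ne_zero j hj
      obtain ⟨f, hf0, hfh, hfv, hf⟩ := h𝒵 Z hZ _ hcard
      obtain ⟨g, hg0, hgd, hg⟩ := dehom J' f hf0 hfh hfv
      refine ⟨g, fun _ => ⟨⟨hg0, hgd⟩, fun t ht => ?_⟩⟩
      rw [hg]
      obtain ⟨u, hu0, hu⟩ := aff_rep t
      have h1 := hf _ ht
      rw [hu, eval_smul f hfh] at h1
      exact (mul_eq_zero.1 h1).resolve_left (pow_ne_zero _ hu0)
    choose g hg using hg
    refine le_trans (Finset.card_le_card ?_) (hC g (fun J hJ => (hg J hJ).1) S hS.card_pos)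
    intro t ht
    obtain ⟨h1, h2⟩ := Finset.mem_filter.1 ht
    exact Finset.mem_filter.2 ⟨h1, fun J hJ => (hg J hJ).2 t h2⟩
  have hsub : T ⊆ ((𝒵.biUnion fun Z => (grid n S).filter fun t => aff t ∈ Z :
      Finset (Fin n → K)) : Set (Fin n → K)) := by
    intro t ht
    obtain ⟨Z, hZ, h1⟩ := hT2 t ht
    rw [Finset.mem_coe, Finset.mem_biUnion]
    exact ⟨Z, hZ, Finset.mem_filter.2 ⟨Fintype.mem_piFinset.2 fun i => hT1 t ht i, h1⟩⟩
  have h1 := Set.ncard_le_ncard hsub (Finset.finite_toSet _)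
  rw [Set.ncard_coe_finset] at h1
  refine h1.trans (Finset.card_biUnion_le.trans ?_)
  exact (Finset.sum_le_card_nsmul _ _ _ hone).trans (le_of_eq (smul_eq_mul _ _))

end Pool.Agent.H148N
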