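import Pool.Agent.H148N.TrS
import Pool.Agent.H148N.Core

set_option autoImplicit false

/-! Families of closed subvarieties of `E ^ r`, members with points of bounded degree, closed subsets
of the parameter space of dimension at most `e`. -/

namespace Pool.Agent.H148N

open MvPolynomial NumberField
open Pool.Agent.Y213.EC Pool.Agent.H901R3.MS Pool.Agent.Y213.BD

open scoped LinearAlgebra.Projectivization

theorem raise {k : Type} [Field k] {n : ℕ} (J : Finset (Fin n)) (j₀ : Fin n) (hj₀ : j₀ ∈ J)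
    (D' D : ℕ) (h : D' < D) (R : MvPolynomial (Fin n) k) (hR0 : R ≠ 0)
    (hRs : R.support ⊆ Finset.finsuppAntidiag J D') :
    ∃ R' : MvPolynomial (Fin n) k, R' ≠ 0 ∧ R'.support ⊆ Finset.finsuppAntidiag J D ∧
      ∀ x, (x ≠ 0 → eval x R = 0) → eval x R' = 0 := by
  classical
  refine ⟨X j₀ ^ (D - D') * R, mul_ne_zero (pow_ne_zero _ (X_ne_zero _)) hR0, ?_, ?_⟩
  · intro ν hν
    rw [X_pow_eq_monomial] at hν
    have h7 := support_mul _ _ hν
    rw [Finset.mem_add] at h7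
    obtain ⟨y, hy, z, hz, rfl⟩ := h7
    have h8 := support_monomial_subset hy
    rw [Finset.mem_singleton] at h8
    have h9 := hRs hz
    rw [Finset.mem_finsuppAntidiag] at h9 ⊢
    subst h8
    constructor
    · simp only [Finsupp.coe_add, Pi.add_apply, Finset.sum_add_distrib, h9.1]
      rw [Finset.sum_eq_single j₀]
      · rw [Finsupp.single_eq_same]
        omega
      · intro k _ hk
        rw [Finsupp.single_eq_of_ne hk]
      · intro h
        exact absurd hj₀ h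
    · refine Finsupp.support_add.trans (Finset.union_subset ?_ h9.2)
      refine Finsupp.support_single_subset.trans ?_
      rw [Finset.singleton_subset_iff]
      exact hj₀
  · intro x hx
    rw [map_mul, map_pow, eval_X]
    by_cases hx0 : x = 0
    · rw [hx0, Pi.zero_apply, zero_pow (by omega), zero_mul]
    · rw [hx hx0, mul_zero]

/-- equations modulo all large primes, of degree `D`, for all sets of `t` coordinates -/
def ModPS {K : Type} [Field K] [NumberField K] {r n q : ℕ} (a b : 𝓞 K)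
    (G : Fin q → Pol (𝓞 K) r n) (M t D : ℕ) : Prop :=
  ∀ (p : ℕ) [Fact p.Prime], D ≤ p → ∀ (φ : 𝓞 K →+* AlgebraicClosure (ZMod p))
    (S : Fin r → Pt (φ a) (φ b)) (J : Finset (Fin n)), J.card = t →
    ∃ R : MvPolynomial (Fin n) (AlgebraicClosure (ZMod p)), R ≠ 0 ∧
      R.support ⊆ Finset.finsuppAntidiag J D ∧ ∀ x ∈ YS a b G M φ S, eval x R = 0

theorem transferSAll (K : Type) [Field K] [NumberField K] (r n q : ℕ) (a b : 𝓞 K)
    (G : Fin q → Pol (𝓞 K) r n) (d : Fin q → Fin r → ℕ) (hG : ∀ e, MHomog (G e) (d e))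
    (σ : K →+* ℂ) (hd : Disc (toC σ a) (toC σ b)) (t : ℕ) (ht : 1 ≤ t) (M₀ : ℕ)
    (hyp : ∀ M < M₀, ∀ S : Fin r → Pt (toC σ a) (toC σ b), ∀ J : Finset (Fin n), J.card = t →
      ∃ (D : ℕ) (R : MvPolynomial (Fin n) ℂ), R ≠ 0 ∧ R.support ⊆ Finset.finsuppAntidiag J D ∧
        ∀ x ∈ YS a b G M (toC σ) S, x ≠ 0 → eval x R = 0) :
    ∃ D : ℕ, 1 ≤ D ∧ ∀ M < M₀, ModPS a b G M t D := by
  classical
  have h1 : ∀ (M : Fin M₀) (J : Finset (Fin n)), ∃ D₀ : ℕ, J.card = t → ∀ (p : ℕ) [Fact p.Prime],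
      D₀ ≤ p → ∀ (φ : 𝓞 K →+* AlgebraicClosure (ZMod p)) (S : Fin r → Pt (φ a) (φ b)),
      ∃ (D : ℕ) (R : MvPolynomial (Fin n) (AlgebraicClosure (ZMod p))), D ≤ D₀ ∧ R ≠ 0 ∧
        R.support ⊆ Finset.finsuppAntidiag J D ∧
        ∀ x ∈ YS a b G M.1 φ S, x ≠ 0 → eval x R = 0 := by
    intro M J
    by_cases hJ : J.card = t
    · obtain ⟨D, hD⟩ := transferSJ K r n q M.1 a b G d hG σ hd J
        (fun S => hyp M.1 M.2 S J hJ)
      exact ⟨D, fun _ => hD⟩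
    · exact ⟨0, fun h => absurd h hJ⟩
  choose D hD using h1
  refine ⟨∑ M, ∑ J, D M J + 1, by omega, fun M hM p hp hle φ S J hJ => ?_⟩
  have h2 : D ⟨M, hM⟩ J ≤ ∑ M, ∑ J, D M J :=
    (Finset.single_le_sum (f := fun J => D ⟨M, hM⟩ J) (fun _ _ => Nat.zero_le _)
      (Finset.mem_univ J)).trans
    (Finset.single_le_sum (f := fun M => ∑ J, D M J) (fun _ _ => Nat.zero_le _)
      (Finset.mem_univ (⟨M, hM⟩ : Fin M₀)))
  obtain ⟨D', R, h3, h4, h5, h6⟩ := hD ⟨M, hM⟩ J hJ p (by omega) φ S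
  obtain ⟨j₀, hj₀⟩ : J.Nonempty := Finset.card_pos.1 (by omega)
  obtain ⟨R', h7, h8, h9⟩ := raise J j₀ hj₀ D' (∑ M, ∑ J, D M J + 1) (by omega) R h4 h5
  exact ⟨R', h7, h8, fun x hx => h9 x (h6 x hx)⟩

open scoped Classical in
theorem coreS (K : Type) [Field K] [NumberField K] (N : ℕ) (ω : Module.Basis (Fin N) ℤ (𝓞 K))
    (r n q M : ℕ) (a b : 𝓞 K) (hd : Disc (a : K) (b : K)) (G : Fin q → Pol (𝓞 K) r n)
    (d : Fin q → Fin r → ℕ) (hG : ∀ e, MHomog (G e) (d e)) (t D : ℕ) (ht : 1 ≤ t)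
    (hns : ModPS a b G M t D) (ε : ℝ) (hε : 0 < ε) :
    ∃ H₀ : ℕ, 3 ≤ H₀ ∧ ∀ H : ℕ, H₀ ≤ H →
      ∃ FF : Finset ((J : Finset (Fin n)) → MvPolynomial (Fin n) K),
      (FF.card : ℝ) ≤ (H : ℝ) ^ ε ∧
      (∀ f ∈ FF, ∀ J : Finset (Fin n), J.card = t →
        f J ≠ 0 ∧ (f J).support ⊆ Finset.finsuppAntidiag J D) ∧
      ∀ c : Fin n × Fin N → ℤ, (∀ i, |c i| ≤ H) →
        DegPt a b G M (fun i => ((W659.SA.vec ω c i : 𝓞 K) : K)) →
        ∃ f ∈ FF, ∀ J : Finset (Fin n), J.card = t →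
          eval (fun i => ((W659.SA.vec ω c i : 𝓞 K) : K)) (f J) = 0 := by
  classical
  have hFG : AddGroup.FG (Pt (a : K) (b : K)) := t_M1K K (a : K) (b : K) hd
  obtain ⟨R₀, hR⟩ := t_M2 (Pt (a : K) (b : K)) hFG
  have hdet := fun J : Finset (Fin n) => Pool.Agent.W305.SA.DET.main K N ω n
    (Finset.finsuppAntidiag J D)
  choose C₀ hC1 hC using hdet
  set C : ℕ := ∑ J, C₀ J with hCdef
  have hCJ : ∀ J, C₀ J ≤ C := fun J =>
    Finset.single_le_sum (f := C₀) (fun _ _ => Nat.zero_le _) (Finset.mem_univ J)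
  obtain ⟨H₀, hH₀, hmain⟩ := primesE K a b hd D (R₀ * r) C ε hε
  refine ⟨H₀, hH₀, fun H hH => ?_⟩
  obtain ⟨T, L, hL, hT, hprod, hLR⟩ := hmain H hH
  obtain ⟨A, hAc, hAr⟩ := hR L hL
  choose κ₀ hκ₀ δ₀ hδ₀ using hAr
  have key : ∀ (κ : Fin r → A) (J : Finset (Fin n)), ∃ f : MvPolynomial (Fin n) K, J.card = t →
      (f ≠ 0 ∧ f.support ⊆ Finset.finsuppAntidiag J D) ∧
      ∀ c : Fin n × Fin N → ℤ, (∀ i, |c i| ≤ H) →
        (∃ s : Fin r → Pt (a : K) (b : K), Rdn a b G M (W659.SA.vec ω c) s ∧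
          ∀ i, κ i = ⟨κ₀ (s i), hκ₀ (s i)⟩) →
        eval (fun i => ((W659.SA.vec ω c i : 𝓞 K) : K)) f = 0 := by
    intro κ J
    by_cases hJ : J.card = t
    swap
    · exact ⟨0, fun h => absurd h hJ⟩
    obtain ⟨f, hf0, hfΛ, hf⟩ := hC J H T (fun p hp => by
        obtain ⟨_, hF, _⟩ := hT p hp
        exact hF.out) (lt_of_le_of_lt (by
          have h1 := hCJ J
          have h2 : 1 ≤ C * (H + 1) := Nat.mul_pos ((hC1 J).trans h1) (Nat.succ_pos _)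
          calc (C₀ J * (H + 1)) ^ C₀ J ≤ (C * (H + 1)) ^ C₀ J :=
                Nat.pow_le_pow_left (Nat.mul_le_mul_right _ h1) _
            _ ≤ (C * (H + 1)) ^ C := Nat.pow_le_pow_right h2 h1) hprod)
      {c | (∀ i, |c i| ≤ H) ∧ ∃ s : Fin r → Pt (a : K) (b : K), Rdn a b G M (W659.SA.vec ω c) s ∧
          ∀ i, κ i = ⟨κ₀ (s i), hκ₀ (s i)⟩}
      (fun c hc => hc.1) (by
        intro p hp
        obtain ⟨hp1, hF, φ, hdφ, hkill⟩ := hT p hp
        haveI := hF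
        haveI : CharP (AlgebraicClosure (ZMod p)) p :=
          charP_of_injective_ringHom (cc p).injective p
        obtain ⟨S, hS⟩ := red_class K (m := M) a b G L (fun i => (κ i).1) p φ hdφ hkill
        obtain ⟨g, hg0, hgs, hg⟩ := hns p hp1 ((cc p).comp φ) S J hJ
        refine ⟨AlgebraicClosure (ZMod p), inferInstance, inferInstance, (cc p).comp φ, g, hg0,
          hgs, ?_⟩
        rintro c ⟨_, s, hs, hκ⟩
        refine hg _ (hS (W659.SA.vec ω c) s hs fun i => ⟨δ₀ (s i), ?_⟩)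
        rw [hκ i]
        exact hδ₀ (s i))
    exact ⟨f, fun _ => ⟨⟨hf0, hfΛ⟩, fun c hc h => hf c ⟨hc, h⟩⟩⟩
  choose f hf using key
  refine ⟨Finset.univ.image f, ?_, ?_, ?_⟩
  · refine le_trans ?_ hLR
    have hQ : Fintype.card (Fin r → A) ≤ L ^ (R₀ * r) := by
      rw [Fintype.card_fun, Fintype.card_fin, Fintype.card_coe, pow_mul]
      exact Nat.pow_le_pow_left hAc r
    have h1 : (Finset.univ.image f).card ≤ L ^ (R₀ * r) := (Finset.card_image_le).trans hQ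
    exact_mod_cast h1
  · intro g hg J hJ
    rw [Finset.mem_image] at hg
    obtain ⟨x, _, rfl⟩ := hg
    exact (hf x J hJ).1
  · intro c hc hdeg
    obtain ⟨s, hs⟩ := member K a b hd G d hG (W659.SA.vec ω c) hdeg
    exact ⟨f (fun i => ⟨κ₀ (s i), hκ₀ (s i)⟩), Finset.mem_image_of_mem _ (Finset.mem_univ _),
      fun J hJ => (hf _ J hJ).2 c hc ⟨s, hs, fun i => rfl⟩⟩

theorem partS (K : Type) [Field K] [NumberField K] (r n q M₀ : ℕ) (a b : 𝓞 K)
    (hd : 4 * a ^ 3 + 27 * b ^ 2 ≠ 0) (G : Fin q → Pol (𝓞 K) r (n + 1))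
    (d : Fin q → Fin r → ℕ) (kk : Fin q → ℕ) (hG : ∀ e, MHomog (G e) (d e))
    (hX : ∀ e, XHomog (G e) (kk e)) (e D : ℕ) (hns : ∀ M < M₀, ModPS a b G M (e + 2) D)
    (ε : ℝ) (hε : 0 < ε) :
    ∃ C : ℝ, 0 ≤ C ∧ ∀ B : ℝ, 1 ≤ B → ∃ 𝒵 : Finset (Set (ℙ K (Fin (n + 1) → K))),
      (𝒵.card : ℝ) ≤ C * B ^ ε ∧ (∀ Z ∈ 𝒵, DimDegLE e D Z) ∧
      ∀ y : ℙ K (Fin (n + 1) → K), y.mulHeight ≤ B → (∃ M < M₀, DegPt a b G M y.rep) →
        ∃ Z ∈ 𝒵, y ∈ Z := by
  classical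
  have hdK := Pool.Agent.Y213.BD.disc_ne hd
  obtain ⟨N, ω, C, hC0, hC⟩ := reduce K (n + 1)
  set ε' : ℝ := ε / (((n + 1 : ℕ) : ℝ) + 1) with hε'
  have hε'0 : 0 < ε' := by positivity
  have hcore : ∀ m : Fin M₀, _ := fun m => coreS K N ω r (n + 1) q m.1 a b hdK G d hG (e + 2) D
    (by omega) (hns m.1 m.2) ε' hε'0
  choose H₀ hH₀ hmain using hcore
  set H₁ : ℕ := Finset.univ.sup H₀ with hH₁
  refine ⟨M₀ * (C + 1 + H₁) ^ ε', by positivity, fun B hB => ?_⟩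
  set H : ℕ := ⌈C * B ^ (n + 1 + 1)⌉₊ + H₁ with hH
  have hB' : (1 : ℝ) ≤ B ^ (n + 1 + 1) := one_le_pow₀ hB
  have hHle : (H : ℝ) ≤ (C + 1 + H₁) * B ^ (n + 1 + 1) := by
    have h1 := (Nat.ceil_lt_add_one (by positivity : 0 ≤ C * B ^ (n + 1 + 1))).le
    have h2 : (0 : ℝ) ≤ H₁ := Nat.cast_nonneg _
    rw [hH]
    push_cast
    nlinarith
  have hHge : C * B ^ (n + 1 + 1) ≤ H := by
    rw [hH]
    push_cast
    have h1 := Nat.le_ceil (C * B ^ (n + 1 + 1))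
    have h2 : (0 : ℝ) ≤ H₁ := Nat.cast_nonneg _
    linarith
  have hex : ∀ m : Fin M₀, _ := fun m => hmain m H
    ((Finset.le_sup (f := H₀) (Finset.mem_univ m)).trans (by omega))
  choose FF hFF1 hFF2 hFF3 using hex
  refine ⟨(Finset.univ.biUnion FF).image fun f => {y | ∀ J : Finset (Fin (n + 1)),
    J.card = e + 2 → eval y.rep (f J) = 0}, ?_, ?_, ?_⟩
  · have h0 : ((((Finset.univ.biUnion FF).image fun f => {y : ℙ K (Fin (n + 1) → K) |
        ∀ J : Finset (Fin (n + 1)), J.card = e + 2 → eval y.rep (f J) = 0}).card : ℕ) : ℝ) ≤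
        ((Finset.univ.biUnion FF).card : ℕ) := by
      exact_mod_cast Finset.card_image_le
    refine h0.trans ?_
    have h1 : (((Finset.univ.biUnion FF).card : ℕ) : ℝ) ≤ ∑ m, ((FF m).card : ℝ) := by
      exact_mod_cast Finset.card_biUnion_le
    refine h1.trans ((Finset.sum_le_sum fun m _ => hFF1 m).trans ?_)
    rw [Finset.sum_const, Finset.card_univ, Fintype.card_fin, nsmul_eq_mul, mul_assoc]
    exact mul_le_mul_of_nonneg_left (rpow_bound (n + 1) C B ε hC0 hB hε H₁ H hHle)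
      (Nat.cast_nonneg _)
  · intro Z hZ J hJ
    obtain ⟨f, hf, rfl⟩ := Finset.mem_image.1 hZ
    rw [Finset.mem_biUnion] at hf
    obtain ⟨m, _, hf⟩ := hf
    obtain ⟨h1, h2⟩ := hFF2 m f hf J hJ
    exact ⟨f J, h1, (homog_vars h2).1, (homog_vars h2).2, fun y hy => hy J hJ⟩
  · rintro y hyB ⟨m, hm, hy⟩
    obtain ⟨c, u, hu, hcu, hcB⟩ := hC B y hyB
    obtain ⟨f, hf, hf0⟩ := hFF3 ⟨m, hm⟩ c (by
      intro i
      have h1 : |(c i : ℝ)| ≤ H := (hcB i).trans hHge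
      exact_mod_cast h1) (by
        simp only [hcu]
        exact degPt_smul a b G kk hX y.rep u hy)
    refine ⟨_, Finset.mem_image_of_mem _ (Finset.mem_biUnion.2 ⟨_, Finset.mem_univ _, hf⟩),
      fun J hJ => ?_⟩
    have h1 : (fun i => ((W659.SA.vec ω c i : 𝓞 K) : K)) = u • y.rep := by
      funext i
      rw [hcu i]
      rfl
    have h3 := hf0 J hJ
    rw [h1, eval_smul (f J) (homog_vars (hFF2 ⟨m, hm⟩ f hf J hJ).2).1] at h3
    rcases mul_eq_zero.1 h3 with h2 | h2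
    · exact absurd h2 (pow_ne_zero _ hu)
    · exact h2

end Pool.Agent.H148N
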