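import Mathlib

set_option autoImplicit false

/-! The number of the points of a grid on a closed subset of dimension at most `e`. -/

namespace Pool.Agent.H148N

open Finset MvPolynomial

variable {K : Type} [Field K]

theorem natDegree_aeval_le {σ : Type} [Fintype σ] (G : MvPolynomial σ K) (f : σ → Polynomial K)
    (hf : ∀ k, (f k).natDegree ≤ 1) : (aeval f G).natDegree ≤ G.totalDegree := by
  rw [aeval_def, eval₂_eq']
  refine Polynomial.natDegree_sum_le_of_forall_le _ _ fun m hm => ?_
  refine (Polynomial.natDegree_mul_le).trans ?_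
  have h1 : ((algebraMap K (Polynomial K)) (coeff m G)).natDegree = 0 :=
    Polynomial.natDegree_C _
  rw [h1, zero_add]
  refine (Polynomial.natDegree_prod_le _ _).trans ?_
  have h2 : ∑ k, m k ≤ G.totalDegree := by
    have := le_totalDegree hm
    rwa [Finsupp.sum_fintype _ _ (fun _ => rfl)] at this
  refine le_trans (Finset.sum_le_sum fun k _ => ?_) h2
  refine (Polynomial.natDegree_pow_le).trans ?_
  calc m k * (f k).natDegree ≤ m k * 1 := Nat.mul_le_mul_left _ (hf k)
    _ = m k := mul_one _

theorem totalDegree_aeval_le' {σ τ : Type} [Fintype σ] (G : MvPolynomial σ K)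
    (f : σ → MvPolynomial τ K) (hf : ∀ k, (f k).totalDegree ≤ 1) :
    (aeval f G).totalDegree ≤ G.totalDegree := by
  rw [aeval_def, eval₂_eq']
  refine (totalDegree_finsetSum _ _).trans (Finset.sup_le fun m hm => ?_)
  refine (totalDegree_mul _ _).trans ?_
  have h1 : ((algebraMap K (MvPolynomial τ K)) (coeff m G)).totalDegree = 0 :=
    totalDegree_C _
  rw [h1, zero_add]
  refine (totalDegree_finsetProd _ _).trans ?_
  have h2 : ∑ k, m k ≤ G.totalDegree := by
    have := le_totalDegree hm
    rwa [Finsupp.sum_fintype _ _ (fun _ => rfl)] at this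
  refine le_trans (Finset.sum_le_sum fun k _ => ?_) h2
  refine (totalDegree_pow _ _).trans ?_
  calc m k * (f k).totalDegree ≤ m k * 1 := Nat.mul_le_mul_left _ (hf k)
    _ = m k := mul_one _

/-- elimination of one coordinate -/
theorem exists_sub [Infinite K] {n : ℕ} (J' : Finset (Fin n)) (j : Fin n) (hj : j ∉ J') (D : ℕ)
    (G : MvPolynomial (insert j J' : Finset (Fin n)) K) (hG : G ≠ 0) (hD : G.totalDegree ≤ D) :
    ∃ Q : MvPolynomial J' K, Q ≠ 0 ∧ Q.totalDegree ≤ D ∧
      ∀ t : Fin n → K, eval (fun k : J' => t k) Q ≠ 0 → ∀ s : Finset K,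
        (∀ x ∈ s, eval (fun k : (insert j J' : Finset (Fin n)) => Function.update t j x k) G = 0) →
          s.card ≤ D := by
  classical
  -- the polynomial in one variable
  set q : (Fin n → K) → Polynomial K := fun t =>
    aeval (fun k : (insert j J' : Finset (Fin n)) =>
      if (k : Fin n) = j then Polynomial.X else Polynomial.C (t k)) G with hq
  have hqd : ∀ t, (q t).natDegree ≤ D := by
    intro t
    refine (natDegree_aeval_le G _ fun k => ?_).trans hD
    split_ifs
    · exact Polynomial.natDegree_X_le
    · rw [Polynomial.natDegree_C]; exact Nat.zero_le _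
  have hqe : ∀ t x, (q t).eval x =
      eval (fun k : (insert j J' : Finset (Fin n)) => Function.update t j x k) G := by
    intro t x
    have h1 : ((Polynomial.evalRingHom x).comp
        ((aeval (fun k : (insert j J' : Finset (Fin n)) =>
          if (k : Fin n) = j then Polynomial.X else Polynomial.C (t k)) :
            MvPolynomial (insert j J' : Finset (Fin n)) K →ₐ[K] Polynomial K) :
            MvPolynomial (insert j J' : Finset (Fin n)) K →+* Polynomial K)) =
        (eval (fun k : (insert j J' : Finset (Fin n)) => Function.update t j x k)) := by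
      apply MvPolynomial.ringHom_ext
      · intro z
        simp
      · intro k
        rw [RingHom.comp_apply, eval_X]
        by_cases hk : (k : Fin n) = j
        · simp [hk]
        · simp [hk]
    exact DFunLike.congr_fun h1 G
  have hroot : ∀ t, q t ≠ 0 → ∀ s : Finset K, (∀ x ∈ s,
      eval (fun k : (insert j J' : Finset (Fin n)) => Function.update t j x k) G = 0) →
        s.card ≤ D := by
    intro t ht s hs
    refine le_trans ?_ (hqd t)
    by_contra hlt
    push Not at hlt
    apply ht
    refine Polynomial.eq_zero_of_natDegree_lt_card_of_eval_eq_zero' (q t) s (fun x hx => ?_) hlt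
    rw [hqe]
    exact hs x hx
  -- a point where `G` does not vanish
  obtain ⟨z, hz⟩ : ∃ z : Fin n → K,
      eval (fun k : (insert j J' : Finset (Fin n)) => z k) G ≠ 0 := by
    by_contra hno
    push Not at hno
    apply hG
    apply MvPolynomial.funext
    intro x
    rw [map_zero]
    have h1 := hno (fun k => if h : k ∈ (insert j J' : Finset (Fin n)) then x ⟨k, h⟩ else 0)
    have h2 : (fun k : (insert j J' : Finset (Fin n)) =>
        (fun k => if h : k ∈ (insert j J' : Finset (Fin n)) then x ⟨k, h⟩ else 0) (k : Fin n)) =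
        x := by
      funext k
      simp only [k.2, dif_pos]
    rw [h2] at h1
    exact h1
  have hqz : q z ≠ 0 := by
    intro h0
    have h1 := hqe z (z j)
    rw [h0, Polynomial.eval_zero, Function.update_eq_self] at h1
    exact hz h1.symm
  obtain ⟨c, hc⟩ : ∃ c : K, (q z).eval c ≠ 0 := by
    by_contra hno
    push Not at hno
    exact hqz (Polynomial.funext fun x => by rw [hno, Polynomial.eval_zero])
  set Q : MvPolynomial J' K := aeval (fun k : (insert j J' : Finset (Fin n)) =>
    if h : (k : Fin n) = j then C c else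
      X (⟨k, Finset.mem_of_mem_insert_of_ne k.2 h⟩ : J')) G with hQ
  have hQe : ∀ t : Fin n → K, eval (fun k : J' => t k) Q = (q t).eval c := by
    intro t
    rw [hqe]
    have h1 : ((aeval (fun k : J' => t k) : MvPolynomial J' K →ₐ[K] K).comp
        (aeval (fun k : (insert j J' : Finset (Fin n)) =>
          if h : (k : Fin n) = j then C c else
            X (⟨k, Finset.mem_of_mem_insert_of_ne k.2 h⟩ : J')) :
            MvPolynomial (insert j J' : Finset (Fin n)) K →ₐ[K] MvPolynomial J' K)) =
        (aeval (fun k : (insert j J' : Finset (Fin n)) => Function.update t j c k)) := by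
      apply MvPolynomial.algHom_ext
      intro k
      by_cases hk : (k : Fin n) = j
      · simp [hk]
      · simp [hk]
    exact DFunLike.congr_fun h1 G
  refine ⟨Q, ?_, ?_, ?_⟩
  · intro h0
    have h1 := hQe z
    rw [h0, map_zero] at h1
    exact hc h1.symm
  · refine (totalDegree_aeval_le' G _ fun k => ?_).trans hD
    split_ifs
    · rw [totalDegree_C]; exact Nat.zero_le _
    · rw [totalDegree_X]
  · intro t ht s hs
    refine hroot t ?_ s hs
    intro h0
    apply ht
    rw [hQe, h0, Polynomial.eval_zero]

/-- the grid -/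
def grid (n : ℕ) (S : Finset K) : Finset (Fin n → K) := Fintype.piFinset fun _ => S

/-- points whose coordinates outside `J` are roots of nonzero polynomials with coefficients
depending on the coordinates in `J` -/
theorem card_fib {n : ℕ} (S : Finset K) (J : Finset (Fin n)) (D : ℕ) (hD : 1 ≤ D)
    (A : Finset (Fin n → K)) (hA : A ⊆ grid n S)
    (hroot : ∀ t ∈ A, ∀ j ∉ J, ∀ s : Finset K, (∀ x ∈ s, ∃ t' ∈ A, (∀ k ∈ J, t' k = t k) ∧ t' j = x) →
      s.card ≤ D) :
    A.card ≤ S.card ^ J.card * D ^ n := by
  classical
  set ρ : (Fin n → K) → (J → K) := fun t k => t k with hρ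
  have h1 : A.card ≤ D ^ n * (A.image ρ).card := by
    refine Finset.card_le_mul_card_image A (D ^ n) fun τ hτ => ?_
    obtain ⟨t, ht, rfl⟩ := Finset.mem_image.1 hτ
    have h2 : A.filter (fun x => ρ x = ρ t) ⊆ Fintype.piFinset (fun k =>
        (A.filter (fun x => ρ x = ρ t)).image (fun x => x k)) := by
      intro x hx
      rw [Fintype.mem_piFinset]
      intro k
      exact Finset.mem_image_of_mem (fun x : Fin n → K => x k) hx
    refine (Finset.card_le_card h2).trans ?_
    rw [Fintype.card_piFinset]
    refine (Finset.prod_le_pow_card _ _ D fun k _ => ?_).trans (by simp)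
    by_cases hk : k ∈ J
    · refine le_trans ?_ hD
      rw [Finset.card_le_one]
      intro x hx y hy
      obtain ⟨x', hx', rfl⟩ := Finset.mem_image.1 hx
      obtain ⟨y', hy', rfl⟩ := Finset.mem_image.1 hy
      have h3 := congrFun (Finset.mem_filter.1 hx').2 ⟨k, hk⟩
      have h4 := congrFun (Finset.mem_filter.1 hy').2 ⟨k, hk⟩
      exact h3.trans h4.symm
    · refine hroot t ht k hk _ fun x hx => ?_
      obtain ⟨x', hx', rfl⟩ := Finset.mem_image.1 hx
      rw [Finset.mem_filter] at hx'
      exact ⟨x', hx'.1, fun i hi => congrFun hx'.2 ⟨i, hi⟩, rfl⟩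
  have h5 : (A.image ρ).card ≤ S.card ^ J.card := by
    have h6 : A.image ρ ⊆ Fintype.piFinset (fun _ : J => S) := by
      intro τ hτ
      obtain ⟨t, ht, rfl⟩ := Finset.mem_image.1 hτ
      rw [Fintype.mem_piFinset]
      intro k
      exact Fintype.mem_piFinset.1 (hA ht) k
    refine (Finset.card_le_card h6).trans ?_
    rw [Fintype.card_piFinset, Finset.prod_const, Finset.card_univ, Fintype.card_coe]
  calc A.card ≤ D ^ n * (A.image ρ).card := h1
    _ ≤ D ^ n * S.card ^ J.card := Nat.mul_le_mul_left _ h5
    _ = _ := mul_comm _ _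

/-- the points of the grid on the closed subset -/
noncomputable def Zf {n : ℕ} (e : ℕ) (S : Finset K) (g : (J : Finset (Fin n)) → MvPolynomial J K) :
    Finset (Fin n → K) :=
  open Classical in (grid n S).filter (fun t => ∀ J : Finset (Fin n), J.card = e →
    eval (fun k : J => t k) (g J) = 0)

theorem count (K : Type) [Field K] [Infinite K] (n e : ℕ) : ∀ D : ℕ, ∃ C : ℕ, ∀ g : (J : Finset (Fin n)) → MvPolynomial J K,
    (∀ J : Finset (Fin n), J.card = e + 1 → g J ≠ 0 ∧ (g J).totalDegree ≤ D) → ∀ S : Finset K,
      1 ≤ S.card → (Zf (e + 1) S g).card ≤ C * S.card ^ e := by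
  classical
  induction e with
  | zero =>
    intro D
    refine ⟨(D + 1) ^ n, fun g hg S hS => ?_⟩
    have h1 := card_fib (n := n) S ∅ (D + 1) (by omega) (Zf (0 + 1) S g)
      (Finset.filter_subset _ _) (by
      intro t _ j _ s hs
      have hj1 : (insert j (∅ : Finset (Fin n))).card = 0 + 1 := by simp
      obtain ⟨hg0, hgD⟩ := hg (insert j ∅) hj1
      obtain ⟨Q, hQ0, -, hQ⟩ := exists_sub ∅ j (by simp) D (g (insert j ∅)) hg0 hgD
      obtain ⟨z, hz⟩ : ∃ z : Fin n → K, eval (fun k : (∅ : Finset (Fin n)) => z k) Q ≠ 0 := by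
        by_contra hno
        push Not at hno
        apply hQ0
        apply MvPolynomial.funext
        intro x
        rw [map_zero, ← hno 0]
        have hx : x = fun k : (∅ : Finset (Fin n)) => (0 : Fin n → K) k := by
          funext k
          exact absurd k.2 (Finset.notMem_empty _)
        rw [← hx]
      refine (hQ z hz s fun x hx => ?_).trans (Nat.le_succ D)
      obtain ⟨t', ht', -, h3⟩ := hs x hx
      have h4 := (Finset.mem_filter.1 ht').2 (insert j ∅) hj1
      rw [← h4]
      congr 1
      congr 1
      funext k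
      have hk : (k : Fin n) = j := by
        rcases Finset.mem_insert.1 k.2 with h5 | h5
        · exact h5
        · exact absurd h5 (Finset.notMem_empty _)
      rw [hk, Function.update_self, h3])
    simpa [mul_comm] using h1
  | succ e ih =>
    intro D
    obtain ⟨C, hC⟩ := ih (n * D)
    refine ⟨2 ^ n * (D + 1) ^ n + C, fun g hg S hS => ?_⟩
    have hex : ∀ (J' : Finset (Fin n)) (j : Fin n), ∃ Q : MvPolynomial J' K,
        J'.card = e + 1 → j ∉ J' → (Q ≠ 0 ∧ Q.totalDegree ≤ D ∧
        ∀ t : Fin n → K, eval (fun k : J' => t k) Q ≠ 0 → ∀ s : Finset K,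
          (∀ x ∈ s, eval (fun k : (insert j J' : Finset (Fin n)) => Function.update t j x k)
            (g (insert j J')) = 0) → s.card ≤ D) := by
      intro J' j
      by_cases h : J'.card = e + 1 ∧ j ∉ J'
      · have h1 : (insert j J').card = e + 1 + 1 := by
          rw [Finset.card_insert_of_notMem h.2, h.1]
        obtain ⟨Q, hQ⟩ := exists_sub J' j h.2 D (g (insert j J')) (hg _ h1).1 (hg _ h1).2
        exact ⟨Q, fun _ _ => hQ⟩
      · exact ⟨0, fun h1 h2 => absurd ⟨h1, h2⟩ h⟩
    choose Q hQ using hex
    set QQ : (J : Finset (Fin n)) → MvPolynomial J K := fun J' =>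
      ∏ j ∈ Finset.univ.filter (fun j => j ∉ J'), Q J' j with hQQ
    have hQQg : ∀ J : Finset (Fin n), J.card = e + 1 → QQ J ≠ 0 ∧ (QQ J).totalDegree ≤ n * D := by
      intro J hJ
      constructor
      · rw [hQQ]
        simp only
        rw [Finset.prod_ne_zero_iff]
        intro j hj
        exact (hQ J j hJ (Finset.mem_filter.1 hj).2).1
      · rw [hQQ]
        refine (totalDegree_finsetProd _ _).trans ?_
        refine (Finset.sum_le_card_nsmul _ _ D fun j hj =>
          (hQ J j hJ (Finset.mem_filter.1 hj).2).2.1).trans ?_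
        rw [smul_eq_mul]
        refine Nat.mul_le_mul_right _ ?_
        refine (Finset.card_le_univ _).trans ?_
        simp
    set A : Finset (Fin n) → Finset (Fin n → K) := fun J =>
      (Zf (e + 1 + 1) S g).filter (fun t => eval (fun k : J => t k) (QQ J) ≠ 0) with hA
    have hAc : ∀ J : Finset (Fin n), J.card = e + 1 →
        (A J).card ≤ S.card ^ (e + 1) * (D + 1) ^ n := by
      intro J hJ
      rw [← hJ]
      refine card_fib S J (D + 1) (by omega) (A J)
        ((Finset.filter_subset _ _).trans (Finset.filter_subset _ _)) ?_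
      intro t ht j hj s hs
      obtain ⟨h1, h2⟩ := Finset.mem_filter.1 ht
      have h3 : eval (fun k : J => t k) (Q J j) ≠ 0 := by
        intro h0
        apply h2
        rw [hQQ]
        simp only
        rw [map_prod]
        exact Finset.prod_eq_zero (Finset.mem_filter.2 ⟨Finset.mem_univ j, hj⟩) h0
      refine ((hQ J j hJ hj).2.2 t h3 s fun x hx => ?_).trans (Nat.le_succ D)
      obtain ⟨t', ht', h4, h5⟩ := hs x hx
      have h6 : (insert j J).card = e + 1 + 1 := by
        rw [Finset.card_insert_of_notMem hj, hJ]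
      have h7 := (Finset.mem_filter.1 (Finset.mem_filter.1 ht').1).2 (insert j J) h6
      rw [← h7]
      congr 1
      congr 1
      funext k
      by_cases hk : (k : Fin n) = j
      · rw [hk, Function.update_self, h5]
      · rw [Function.update_of_ne hk]
        exact (h4 k (Finset.mem_of_mem_insert_of_ne k.2 hk)).symm
    have hsub : Zf (e + 1 + 1) S g ⊆
        ((Finset.univ.filter (fun J : Finset (Fin n) => J.card = e + 1)).biUnion A) ∪
          Zf (e + 1) S QQ := by
      intro t ht
      rw [Finset.mem_union, Finset.mem_biUnion]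
      by_cases h : ∃ J : Finset (Fin n), J.card = e + 1 ∧ eval (fun k : J => t k) (QQ J) ≠ 0
      · obtain ⟨J, h1, h2⟩ := h
        exact Or.inl ⟨J, Finset.mem_filter.2 ⟨Finset.mem_univ J, h1⟩,
          Finset.mem_filter.2 ⟨ht, h2⟩⟩
      · push Not at h
        exact Or.inr (Finset.mem_filter.2 ⟨(Finset.mem_filter.1 ht).1, h⟩)
    refine (Finset.card_le_card hsub).trans ((Finset.card_union_le _ _).trans ?_)
    have h1 : ((Finset.univ.filter (fun J : Finset (Fin n) => J.card = e + 1)).biUnion A).card ≤
        2 ^ n * (S.card ^ (e + 1) * (D + 1) ^ n) := by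
      refine Finset.card_biUnion_le.trans ?_
      refine (Finset.sum_le_card_nsmul _ _ _ fun J hJ => hAc J (Finset.mem_filter.1 hJ).2).trans ?_
      rw [smul_eq_mul]
      refine Nat.mul_le_mul_right _ ?_
      refine (Finset.card_le_univ _).trans ?_
      rw [Fintype.card_finset, Fintype.card_fin]
    have h2 := hC QQ hQQg S hS
    have h3 : C * S.card ^ e ≤ C * S.card ^ (e + 1) :=
      Nat.mul_le_mul_left _ (Nat.pow_le_pow_right hS (Nat.le_succ e))
    calc _ ≤ 2 ^ n * (S.card ^ (e + 1) * (D + 1) ^ n) + C * S.card ^ (e + 1) :=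
          Nat.add_le_add h1 (h2.trans h3)
      _ = _ := by ring

end Pool.Agent.H148N
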