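import Mathlib

set_option autoImplicit false

/-! Embeddings in `ℂ` over a number field. -/

namespace Pool.Agent.H148N

open Cardinal

/-- a field with at most continuum many elements is contained in an algebraically closed field with
continuum many elements -/
theorem big_closure (L : Type) [Field L] (hL : #L ≤ 𝔠) :
    ∃ (M : Type) (_ : Field M) (_ : IsAlgClosed M) (_ : L →+* M), #M = 𝔠 := by
  classical
  let A : Type := MvPolynomial ℝ L
  let M : Type := AlgebraicClosure (FractionRing A)
  have hA : #A ≤ 𝔠 := by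
    refine MvPolynomial.cardinalMk_le_max.trans ?_
    refine max_le (max_le hL ?_) aleph0_le_continuum
    rw [mk_real]
  have hA' : 𝔠 ≤ #A := by
    rw [← mk_real]
    exact mk_le_of_injective (MvPolynomial.X_injective (R := L) (σ := ℝ))
  have hF : #(FractionRing A) = 𝔠 := by
    rw [Cardinal.mk_fractionRing]
    exact le_antisymm hA hA'
  have hM : #M = 𝔠 := by
    refine le_antisymm ((Algebra.IsAlgebraic.cardinalMk_le_max (FractionRing A) M).trans ?_) ?_
    · rw [hF]
      exact max_le le_rfl aleph0_le_continuum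
    · rw [← hF]
      exact mk_le_of_injective (algebraMap (FractionRing A) M).injective
  exact ⟨M, inferInstance, inferInstance, (algebraMap (FractionRing A) M).comp
    ((algebraMap A (FractionRing A)).comp MvPolynomial.C), hM⟩

/-- an embedding in `ℂ` over a countable field -/
theorem embed_over (K L : Type) [Field K] [Field L] (hK : #K ≤ ℵ₀) (hL : #L ≤ 𝔠)
    (f : K →+* L) (σ : K →+* ℂ) : ∃ ψ : L →+* ℂ, ∀ x, ψ (f x) = σ x := by
  obtain ⟨M, _, _, g, hM⟩ := big_closure L hL
  letI : Algebra K M := (g.comp f).toAlgebra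
  letI : Algebra K ℂ := σ.toAlgebra
  obtain ⟨s, hs⟩ := exists_isTranscendenceBasis K M
  obtain ⟨t, ht⟩ := exists_isTranscendenceBasis K ℂ
  have h1 : #M = #s := IsAlgClosed.cardinal_eq_cardinal_transcendence_basis_of_aleph0_lt'
    _ hs hK (by rw [hM]; exact aleph0_lt_continuum)
  have h2 : #ℂ = #t := IsAlgClosed.cardinal_eq_cardinal_transcendence_basis_of_aleph0_lt'
    _ ht hK (by rw [mk_complex]; exact aleph0_lt_continuum)
  have h3 : #s = #t := by rw [← h1, ← h2, hM, mk_complex]
  obtain ⟨e⟩ := Cardinal.eq.1 h3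
  letI := IsAlgClosed.isAlgClosure_of_transcendence_basis _ hs
  letI := IsAlgClosed.isAlgClosure_of_transcendence_basis _ ht
  let e' := hs.1.aevalEquiv.symm.trans
    ((MvPolynomial.renameEquiv K e).trans ht.1.aevalEquiv)
  let E := IsAlgClosure.equivOfEquiv M ℂ e'.toRingEquiv
  refine ⟨(E : M →+* ℂ).comp g, fun x => ?_⟩
  have h4 : g (f x) = algebraMap _ M (algebraMap K
      (Algebra.adjoin K (Set.range (Subtype.val : s → M))) x) := rfl
  have h5 : E (algebraMap _ M (algebraMap K
      (Algebra.adjoin K (Set.range (Subtype.val : s → M))) x)) =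
      algebraMap _ ℂ (e'.toRingEquiv (algebraMap K
      (Algebra.adjoin K (Set.range (Subtype.val : s → M))) x)) :=
    IsAlgClosure.equivOfEquiv_algebraMap M ℂ e'.toRingEquiv _
  have h6 : e'.toRingEquiv (algebraMap K
      (Algebra.adjoin K (Set.range (Subtype.val : s → M))) x) = algebraMap K _ x :=
    e'.commutes x
  change E (g (f x)) = σ x
  rw [h4, h5, h6]
  rfl

end Pool.Agent.H148N
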