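import Pool.Agent.H148N.Fin

set_option autoImplicit false

/-! An explicit class: complete intersections of diagonal equations, in every dimension and
codimension. -/

namespace Pool.Agent.H148N

open MvPolynomial NumberField

open scoped LinearAlgebra.Projectivization

/-- the polynomial `f_0 y_0 ^ m + … + f_n y_n ^ m` -/
noncomputable def diag {O : Type} [CommRing O] {r n : ℕ} (m : ℕ)
    (f : Fin (n + 1) → MvPolynomial (Fin r × Fin 3) O) :
    MvPolynomial ((Fin r × Fin 3) ⊕ Fin (n + 1)) O :=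
  ∑ i, rename Sum.inl (f i) * X (Sum.inr i) ^ m

/-- a form of multidegree `d` in the homogeneous coordinates of the `r` plane cubics -/
def IsForm {O : Type} [CommRing O] {r : ℕ} (f : MvPolynomial (Fin r × Fin 3) O)
    (d : Fin r → ℕ) : Prop :=
  ∀ e ∈ f.support, ∀ i, ∑ j, e (i, j) = d i

theorem diag_homog {O : Type} [CommRing O] {r n : ℕ} (m : ℕ)
    (f : Fin (n + 1) → MvPolynomial (Fin r × Fin 3) O) (d : Fin r → ℕ)
    (hf : ∀ i, IsForm (f i) d) : MultiHomog (diag m f) d m := by
  classical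
  intro e he
  unfold diag at he
  have h1 := support_sum he
  rw [Finset.mem_biUnion] at h1
  obtain ⟨i, _, h2⟩ := h1
  rw [X_pow_eq_monomial] at h2
  have h3 := support_mul _ _ h2
  rw [Finset.mem_add] at h3
  obtain ⟨y, hy, z, hz, rfl⟩ := h3
  have h4 := support_monomial_subset hz
  rw [Finset.mem_singleton] at h4
  subst h4
  rw [support_rename_of_injective Sum.inl_injective, Finset.mem_image] at hy
  obtain ⟨e', he', rfl⟩ := hy
  constructor
  · intro i'
    rw [← hf i e' he' i']
    refine Finset.sum_congr rfl fun j _ => ?_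
    rw [Finsupp.add_apply, Finsupp.mapDomain_apply Sum.inl_injective,
      Finsupp.single_eq_of_ne (by simp), add_zero]
  · rw [Finset.sum_eq_single i]
    · rw [Finsupp.add_apply, Finsupp.mapDomain_of_notMem_range _ _ (by simp),
        Finsupp.single_eq_same, zero_add]
    · intro k _ hk
      rw [Finsupp.add_apply, Finsupp.mapDomain_of_notMem_range _ _ (by simp),
        Finsupp.single_eq_of_ne (by simpa using hk), add_zero]
    · intro h
      exact absurd (Finset.mem_univ _) h

theorem eval_diag {O F : Type} [CommRing O] [Field F] (φ : O →+* F) {r n : ℕ} (m : ℕ)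
    (f : Fin (n + 1) → MvPolynomial (Fin r × Fin 3) O) (V : Fin r → Fin 3 → F)
    (y : Fin (n + 1) → F) :
    eval₂ φ (Sum.elim (fun ij => V ij.1 ij.2) y) (diag m f) =
      ∑ i, eval₂ φ (fun ij => V ij.1 ij.2) (f i) * y i ^ m := by
  unfold diag
  rw [← coe_eval₂Hom, map_sum]
  refine Finset.sum_congr rfl fun i _ => ?_
  rw [map_mul, map_pow, coe_eval₂Hom, eval₂_rename, eval₂_X]
  rfl

/-- `s` independent diagonal equations define a closed subset of dimension at most `n - s` -/
theorem diag_dim {n s : ℕ} (hs : 1 ≤ s) (hsn : s ≤ n) (m : ℕ) (hm : 1 ≤ m)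
    (A : Fin s → Fin (n + 1) → ℂ) (hA : LinearIndependent ℂ A) :
    DimDegLE (n - s) m {y : ℙ ℂ (Fin (n + 1) → ℂ) | ∀ l, ∑ i, A l i * y.rep i ^ m = 0} := by
  classical
  intro J hJ
  -- a combination of the rows which vanishes outside `J`
  obtain ⟨lam, hlam0, hlam⟩ : ∃ lam : Fin s → ℂ, lam ≠ 0 ∧
      ∀ k ∉ J, ∑ l, lam l * A l k = 0 := by
    set φ : (Fin s → ℂ) →ₗ[ℂ] ({k : Fin (n + 1) // k ∉ J} → ℂ) :=
      LinearMap.pi fun k => ∑ l, (A l k.1) • LinearMap.proj l with hφ
    have hφe : ∀ lam k, φ lam k = ∑ l, lam l * A l k.1 := by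
      intro lam k
      simp [hφ, mul_comm]
    have hker : LinearMap.ker φ ≠ ⊥ := by
      apply LinearMap.ker_ne_bot_of_finrank_lt
      rw [Module.finrank_fintype_fun_eq_card, Module.finrank_fintype_fun_eq_card,
        Fintype.card_fin, Fintype.card_subtype_compl, Fintype.card_fin]
      simp only [Fintype.card_coe]
      omega
    obtain ⟨lam, h1, h2⟩ := (Submodule.ne_bot_iff _).1 hker
    refine ⟨lam, h2, fun k hk => ?_⟩
    rw [← hφe lam ⟨k, hk⟩, LinearMap.mem_ker.1 h1]
    rfl
  set c : Fin (n + 1) → ℂ := fun k => ∑ l, lam l * A l k with hc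
  have hc0 : c ≠ 0 := by
    intro h0
    apply hlam0
    have h1 := Fintype.linearIndependent_iff.1 hA lam (by
      funext k
      have := congrFun h0 k
      simpa [hc] using this)
    funext l
    exact h1 l
  obtain ⟨k₀, hk₀⟩ := Function.ne_iff.1 hc0
  have hcoef : (∑ k, C (c k) * X k ^ m : MvPolynomial (Fin (n + 1)) ℂ) =
      ∑ k, monomial (Finsupp.single k m) (c k) := by
    refine Finset.sum_congr rfl fun k _ => ?_
    rw [X_pow_eq_monomial, C_mul_monomial, mul_one]
  refine ⟨∑ k, C (c k) * X k ^ m, ?_, ?_, ?_, ?_⟩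
  · intro h0
    have h1 := congrArg (eval (fun k' => if k' = k₀ then (1 : ℂ) else 0)) h0
    rw [map_zero, map_sum] at h1
    rw [Finset.sum_eq_single k₀] at h1
    · apply hk₀
      simpa using h1
    · intro k' _ hk'
      simp [hk']
      exact Or.inr (by omega)
    · intro h
      exact absurd (Finset.mem_univ _) h
  · refine IsHomogeneous.sum _ _ _ fun k _ => ?_
    have h1 := (isHomogeneous_C (Fin (n + 1)) (c k)).mul ((isHomogeneous_X ℂ k).pow m)
    simpa using h1
  · intro k hk
    by_contra hkJ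
    rw [mem_vars_iff_mem_support] at hk
    obtain ⟨ν, hν, hkν⟩ := hk
    rw [hcoef] at hν
    have h1 := support_sum hν
    rw [Finset.mem_biUnion] at h1
    obtain ⟨k', _, h2⟩ := h1
    have h3 := support_monomial_subset h2
    rw [Finset.mem_singleton] at h3
    subst h3
    have h4 := Finsupp.support_single_subset hkν
    rw [Finset.mem_singleton] at h4
    subst h4
    rw [mem_support_iff, coeff_monomial, if_pos rfl] at h2
    exact h2 (hlam k hkJ)
  · intro y hy
    rw [map_sum]
    have h3 : ∑ k, eval y.rep (C (c k) * X k ^ m) = ∑ l, lam l * ∑ i, A l i * y.rep i ^ m := by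
      simp only [map_mul, map_pow, eval_C, eval_X, hc, Finset.sum_mul, Finset.mul_sum]
      rw [Finset.sum_comm]
      refine Finset.sum_congr rfl fun l _ => Finset.sum_congr rfl fun k _ => ?_
      ring
    rw [h3]
    exact Finset.sum_eq_zero fun l _ => by rw [hy l, mul_zero]

/-- the dimension of the fibres of the explicit varieties -/
theorem diag_sums {k : Type} [Field k] (σ : k →+* ℂ) (a b : 𝓞 k) {r n s : ℕ} (hs : 1 ≤ s)
    (hsn : s ≤ n) (m : ℕ) (hm : 1 ≤ m)
    (f : Fin s → Fin (n + 1) → MvPolynomial (Fin r × Fin 3) (𝓞 k))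
    (hrk : ∀ V : Fin r → Fin 3 → ℂ, (∀ i, OnE (σ a) (σ b) (V i)) →
      LinearIndependent ℂ (fun (l : Fin s) (i : Fin (n + 1)) =>
        eval₂ (σ.comp (algebraMap (𝓞 k) k)) (fun ij : Fin r × Fin 3 => V ij.1 ij.2) (f l i))) :
    ∀ m', 1 ≤ m' → m' ≤ 1 → ∀ S, DimLE (n - s) (Sums σ a b (fun l => diag m (f l)) m' S) := by
  intro m' h1 h2 S
  obtain rfl : m' = 1 := le_antisymm h2 h1
  refine ⟨m, ?_⟩
  have hV : ∀ i, OnE (σ a) (σ b) (coords (S i)) := by
    intro i
    have h3 := Pool.Agent.Y213.EC.onK_rep (a := σ a) (b := σ b) (S i)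
    rw [← coords_eq (S i)] at h3
    exact h3
  intro J hJ
  obtain ⟨g, hg0, hgh, hgv, hg⟩ := diag_dim hs hsn m hm _ (hrk (fun i => coords (S i)) hV) J hJ
  refine ⟨g, hg0, hgh, hgv, fun y hy => hg y ?_⟩
  obtain ⟨P, hP1, hP2⟩ := hy
  have hPS : P 0 = S := by
    funext i
    rw [← hP2 i]
    simp
  intro l
  have h3 := hP1 0 l
  have h4 := eval_diag (σ.comp (algebraMap (𝓞 k) k)) m (f l) (fun i => coords (P 0 i)) y.rep
  rw [← hPS]
  exact h4.symm.trans h3

end Pool.Agent.H148N
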