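import Pool.Agent.H148N.Grid
import Pool.Agent.H148N.CoreS

set_option autoImplicit false

/-! Families of closed subvarieties of `E ^ r` over `ℙ ^ n`: the definitions and the main theorem. -/

namespace Pool.Agent.H148N

open MvPolynomial NumberField

open scoped LinearAlgebra.Projectivization

/-- the curve `y² = x³ + a x + b` -/
def curve {F : Type} [Field F] (a b : F) : WeierstrassCurve F := ⟨0, 0, 0, a, b⟩

/-- homogeneous coordinates of a point in the projective plane -/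
def coords {F : Type} [Field F] {W : WeierstrassCurve F} : W.toAffine.Point → Fin 3 → F
  | .zero => ![0, 1, 0]
  | .some x y _ => ![x, y, 1]

/-- `v` are homogeneous coordinates of a point of the curve `y² = x³ + a x + b` -/
def OnE {F : Type} [Field F] (a b : F) (v : Fin 3 → F) : Prop :=
  v ≠ 0 ∧ v 1 ^ 2 * v 2 = v 0 ^ 3 + a * v 0 * v 2 ^ 2 + b * v 2 ^ 3

/-- `F` is homogeneous of degree `d i` in the coordinates `(i, 0), (i, 1), (i, 2)` of the `i`-th
point of the plane, and homogeneous of degree `m` in the last `n + 1` variables -/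
def MultiHomog {O : Type} [CommRing O] {r n : ℕ}
    (F : MvPolynomial ((Fin r × Fin 3) ⊕ Fin (n + 1)) O) (d : Fin r → ℕ) (m : ℕ) : Prop :=
  ∀ e ∈ F.support, (∀ i, ∑ j, e (Sum.inl (i, j)) = d i) ∧ ∑ i, e (Sum.inr i) = m

/-- `G_l(V; y) = 0` for all `l`: the point with the homogeneous coordinates `V` and `y` lies on the
closed subset `X` given by the `G_l`; in other words `V` lies on the member `X_y` of the family, and
`y` lies on the fibre of `X` over `V` -/
def OnX {O F : Type} [CommRing O] [Field F] (φ : O →+* F) {r n q : ℕ}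
    (G : Fin q → MvPolynomial ((Fin r × Fin 3) ⊕ Fin (n + 1)) O) (V : Fin r → Fin 3 → F)
    (y : Fin (n + 1) → F) : Prop :=
  ∀ l, eval₂ φ (Sum.elim (fun ij => V ij.1 ij.2) y) (G l) = 0

open scoped Classical in
/-- the `y` in the complex projective `n`-space such that `S` is the sum of `m` complex points of the
member `X_y`; for `m = 1` this is the fibre of `X` over the point `S` of `E ^ r` -/
def Sums {k : Type} [Field k] (σ : k →+* ℂ) (a b : 𝓞 k) {r n q : ℕ}
    (G : Fin q → MvPolynomial ((Fin r × Fin 3) ⊕ Fin (n + 1)) (𝓞 k)) (m : ℕ)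
    (S : Fin r → (curve (σ a) (σ b)).toAffine.Point) : Set (ℙ ℂ (Fin (n + 1) → ℂ)) :=
  {y | ∃ P : Fin m → Fin r → (curve (σ a) (σ b)).toAffine.Point,
    (∀ j, OnX (σ.comp (algebraMap (𝓞 k) k)) G (fun i => coords (P j i)) y.rep) ∧
    ∀ i, ∑ j, P j i = S i}

/-- the dimension of (the Zariski closure of) `Z` is at most `e` -/
def DimLE {K : Type} [Field K] {n : ℕ} (e : ℕ) (Z : Set (ℙ K (Fin (n + 1) → K))) : Prop :=
  ∃ D : ℕ, DimDegLE e D Z

/-- the member `X_y` of the family has a point over an extension of `K` of degree at most `M` -/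
def HasPoint {k : Type} [Field k] (a b : 𝓞 k) {r n q : ℕ}
    (G : Fin q → MvPolynomial ((Fin r × Fin 3) ⊕ Fin (n + 1)) (𝓞 k)) (M : ℕ) {K : Type} [Field K]
    [Algebra k K] (y : ℙ K (Fin (n + 1) → K)) : Prop :=
  ∃ (F : Type) (_ : Field F) (_ : Algebra K F), FiniteDimensional K F ∧ Module.finrank K F ≤ M ∧
    ∃ V : Fin r → Fin 3 → F,
      (∀ i, OnE (algebraMap K F (algebraMap k K a)) (algebraMap K F (algebraMap k K b)) (V i)) ∧
      OnX (((algebraMap K F).comp (algebraMap k K)).comp (algebraMap (𝓞 k) k)) G V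
        (fun i => algebraMap K F (y.rep i))

theorem coords_eq {F : Type} [Field F] {a b : F} (P : Pool.Agent.H901R3.MS.Pt a b) :
    coords P = Pool.Agent.H901R3.MS.rep P := by
  rcases P with _ | ⟨x, y, h⟩ <;> rfl

open Pool.Agent.Y213.EC Pool.Agent.H901R3.MS Pool.Agent.Y213.BD

theorem base_change {k K : Type} [Field k] [NumberField k] [Field K] [NumberField K] [Algebra k K]
    {r n q : ℕ} (a b : 𝓞 k) (G : Fin q → Pol (𝓞 k) r n) (M t D : ℕ) (h : ModPS a b G M t D) :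
    ModPS (algebraMap (𝓞 k) (𝓞 K) a) (algebraMap (𝓞 k) (𝓞 K) b)
      (fun l => MvPolynomial.map (algebraMap (𝓞 k) (𝓞 K)) (G l)) M t D := by
  intro p _ hp φ S J hJ
  obtain ⟨R, h1, h2, h3⟩ := h p hp (φ.comp (algebraMap (𝓞 k) (𝓞 K))) S J hJ
  refine ⟨R, h1, h2, fun x hx => h3 x ?_⟩
  obtain ⟨P, h4, h5⟩ := hx
  refine ⟨P, fun j l => ?_, h5⟩
  have h6 := h4 j l
  unfold vl at h6 ⊢
  rw [eval₂_map] at h6
  exact h6

theorem fin_main (k : Type) [Field k] [NumberField k] (σ : k →+* ℂ) (a b : 𝓞 k)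
    (hE : 4 * a ^ 3 + 27 * b ^ 2 ≠ 0) (r n q : ℕ)
    (G : Fin q → MvPolynomial ((Fin r × Fin 3) ⊕ Fin (n + 1)) (𝓞 k))
    (d : Fin q → Fin r → ℕ) (deg : Fin q → ℕ) (hG : ∀ l, MultiHomog (G l) (d l) (deg l))
    (M e : ℕ)
    (hX : ∀ m, 1 ≤ m → m ≤ M → ∀ S, DimLE e (Sums σ a b G m S)) :
    ∃ D : ℕ, ∀ (K : Type) [Field K] [NumberField K] [Algebra k K] (ε : ℝ), 0 < ε →
      ∃ C : ℝ, ∀ B : ℝ, 1 ≤ B →
        (∃ 𝒵 : Finset (Set (ℙ K (Fin (n + 1) → K))), (𝒵.card : ℝ) ≤ C * B ^ ε ∧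
          (∀ Z ∈ 𝒵, DimDegLE e D Z) ∧
          ∀ y : ℙ K (Fin (n + 1) → K), y.mulHeight ≤ B → HasPoint a b G M y → ∃ Z ∈ 𝒵, y ∈ Z) ∧
        ∀ S : Finset K, S.Nonempty →
          ({t : Fin n → K | (∀ i, t i ∈ S) ∧ (aff t).mulHeight ≤ B ∧
            HasPoint a b G M (aff t)}.ncard : ℝ) ≤ C * B ^ ε * (S.card : ℝ) ^ e := by
  classical
  have hdk : Disc (a : k) (b : k) := Pool.Agent.Y213.BD.disc_ne hE
  have hMH : ∀ l, MHomog (G l) (d l) := fun l x hx => (hG l x hx).1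
  have hXH : ∀ l, XHomog (G l) (deg l) := fun l x hx => (hG l x hx).2
  obtain ⟨D, hD1, hD⟩ := transferSAll k r (n + 1) q a b G d hMH σ
    (Pool.Agent.Y213.BD.disc_of σ hdk) (e + 2) (by omega) M (by
      intro m hm S J hJ
      obtain ⟨D, hD⟩ := hX (m + 1) (by omega) (by omega) S
      obtain ⟨f, hf0, hfh, hfv, hf⟩ := hD J hJ
      refine ⟨D, f, hf0, supp_of_homog_vars hfh hfv, fun x hx hx0 => ?_⟩
      obtain ⟨u, hu⟩ := Projectivization.exists_smul_eq_mk_rep ℂ x hx0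
      have h1 : (Projectivization.mk ℂ x hx0).rep = (u : ℂ) • x := hu.symm
      have h2 := hf (Projectivization.mk ℂ x hx0) (by
        obtain ⟨P, h3, h4⟩ := ys_smul a b G deg hXH (toC σ) S x u hx
        refine ⟨P, fun j l => ?_, h4⟩
        have h5 := h3 j l
        rw [← h1] at h5
        unfold vl at h5
        rw [← h5]
        congr 1
        funext ij
        rcases ij with ij | i
        · exact congrFun (coords_eq (P j ij.1)) ij.2
        · rfl)
      rw [h1, eval_smul f hfh] at h2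
      exact (mul_eq_zero.1 h2).resolve_left (pow_ne_zero _ u.ne_zero))
  refine ⟨D, fun K _ _ _ ε hε => ?_⟩
  have hinj : Function.Injective (algebraMap (𝓞 k) (𝓞 K)) :=
    FaithfulSMul.algebraMap_injective (𝓞 k) (𝓞 K)
  set a' : 𝓞 K := algebraMap (𝓞 k) (𝓞 K) a with ha'
  set b' : 𝓞 K := algebraMap (𝓞 k) (𝓞 K) b with hb'
  set G' : Fin q → Pol (𝓞 K) r (n + 1) :=
    fun l => MvPolynomial.map (algebraMap (𝓞 k) (𝓞 K)) (G l) with hG'
  have hE' : 4 * a' ^ 3 + 27 * b' ^ 2 ≠ 0 := by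
    intro h0
    apply hE
    apply hinj
    rw [map_zero, ← h0, ha', hb']
    simp only [map_add, map_mul, map_pow, map_ofNat]
  have hMH' : ∀ l, MHomog (G' l) (d l) := fun l x hx =>
    hMH l x (MvPolynomial.support_map_subset _ _ hx)
  have hXH' : ∀ l, XHomog (G' l) (deg l) := fun l x hx =>
    hXH l x (MvPolynomial.support_map_subset _ _ hx)
  obtain ⟨C, hC0, hC⟩ := partS K r n q M a' b' hE' G' d deg hMH' hXH' e D
    (fun m hm => base_change a b G m (e + 2) D (hD m hm)) ε hε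
  obtain ⟨C', hC'⟩ := grid_bound K n e D
  have hdeg : ∀ y : ℙ K (Fin (n + 1) → K), HasPoint a b G M y →
      ∃ m < M, DegPt a' b' G' m y.rep := by
    rintro y ⟨F, hF1, hF2, hfin, hle, V, hV, hy⟩
    have hpos : 0 < Module.finrank K F := Module.finrank_pos
    refine ⟨Module.finrank K F - 1, by omega, F, hF1, hF2, by omega, V, ?_, ?_⟩
    · intro i
      exact hV i
    · intro l
      have h1 := hy l
      unfold vl
      rw [hG']
      simp only
      rw [eval₂_map]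
      exact h1
  refine ⟨max C (C * C'), fun B hB => ?_⟩
  obtain ⟨𝒵, h1, h2, h3⟩ := hC B hB
  have hB0 : 0 ≤ B ^ ε := Real.rpow_nonneg (by linarith) _
  refine ⟨⟨𝒵, h1.trans (mul_le_mul_of_nonneg_right (le_max_left _ _) hB0), h2,
    fun y hyB hy => h3 y hyB (hdeg y hy)⟩, fun S hS => ?_⟩
  have h4 := hC' 𝒵 h2 S hS {t : Fin n → K | (∀ i, t i ∈ S) ∧ (aff t).mulHeight ≤ B ∧
    HasPoint a b G M (aff t)} (fun t ht => ht.1) (fun t ht => h3 _ ht.2.1 (hdeg _ ht.2.2))
  have h5 : (({t : Fin n → K | (∀ i, t i ∈ S) ∧ (aff t).mulHeight ≤ B ∧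
      HasPoint a b G M (aff t)}.ncard : ℕ) : ℝ) ≤ (𝒵.card : ℝ) * (C' * (S.card : ℝ) ^ e) := by
    exact_mod_cast h4
  refine h5.trans ?_
  have h6 : (𝒵.card : ℝ) * (C' * (S.card : ℝ) ^ e) ≤ (C * B ^ ε) * (C' * (S.card : ℝ) ^ e) :=
    mul_le_mul_of_nonneg_right h1 (by positivity)
  refine h6.trans ?_
  have h7 : (C * B ^ ε) * (C' * (S.card : ℝ) ^ e) = (C * C') * (B ^ ε * (S.card : ℝ) ^ e) := by
    ring
  rw [h7, mul_assoc (max C (C * C'))]
  exact mul_le_mul_of_nonneg_right (le_max_right _ _) (by positivity)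

end Pool.Agent.H148N
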