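import Pool.Agent.H148N.Tr
import Pool.Agent.Y213.BD.TrH

set_option autoImplicit false

/-! Points with a given sum: configurations with control of the sum (variants of lemmas in
`Pool.Agent.Y213.BD.Cfg`). -/

namespace Pool.Agent.H148N

open WeierstrassCurve Pool.Agent.H901R3.MS NumberField Pool.Agent.Y213.EC
open MvPolynomial hiding ext
open Pool.Agent.Y213.BD

open scoped WeierstrassCurve.Projective

variable {ι : Type} {r n m q : ℕ}

open scoped Classical in
theorem ex_rev {O : Type} [CommRing O] (a b : O) (G : Fin q → Pol O r n)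
    (D : MvPolynomial (ι × Fin n) O) {k : Type} [Field k] (φ : O →+* k)
    (S : Fin r → Pt (φ a) (φ b)) (y : ι → Fin n → k)
    (P : ι → Fin (m + 1) → Fin r → Pt (φ a) (φ b))
    (hG : ∀ l j e, vl φ (G e) (fun i => rep (P l j i)) (y l) = 0)
    (hS : ∀ l i, ∑ j, P l j i = S i) (hD : eval₂ φ (fun lt => y lt.1 lt.2) D ≠ 0) :
    ∃ (τ : ι → Fin r → Fin m → Bool) (v : Vr ι r n m → k),
      (∀ x, ex a b G D τ k φ v x = 0) ∧ (∀ i c, v (.S i c) = rep (S i) c) ∧
      ∀ l t, v (.Y l t) = y l t := by
  classical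
  let Vs : ι → Fin r → ℕ → Fin 3 → k := fun l i j => rep (P l (Fin.ofNat (m + 1) j) i)
  have hty : ∀ l i, ∃ τ : ℕ → Bool, ∀ j, (τ j = true ↔
      ps (CR (φ a) (φ b)) τ (Vs l i) j ≈ Vs l i (j + 1)) := fun l i => exists_types _
  choose τ' hτ' using hty
  let τ : ι → Fin r → Fin m → Bool := fun l i j => τ' l i j.1
  have hps : ∀ l i, ∀ j ≤ m, ps (CR (φ a) (φ b)) (ext τ l i) (Vs l i) j =
      ps (CR (φ a) (φ b)) (τ' l i) (Vs l i) j := by
    intro l i j hj
    refine ps_congr _ _ _ _ _ fun k hk => ?_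
    unfold ext
    rw [dif_pos (by omega : k < m)]
  have hspec := fun l i => ps_spec (a := φ a) (b := φ b) (τ' l i) (Vs l i) m
    (fun j _ => ns_rep _) (fun j _ => hτ' l i j)
  have hW : ∀ l j i, ∃ W : Fin 3 → k, ∑ c, rep (P l j i) c * W c = 1 := fun l j i =>
    exists_dual _ (rep_ne0 _)
  choose W hW using hW
  have hT : ∀ i, ∃ T : Fin 3 → k, ∑ c, rep (S i) c * T c = 1 := fun i => exists_dual _ (rep_ne0 _)
  choose T hT using hT
  have hU : ∀ l i (j : Fin m), ∃ u : k, τ l i j = true →
      ∀ c, ps (CR (φ a) (φ b)) (ext τ l i) (Vs l i) j c = u * Vs l i (j + 1) c := by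
    intro l i j
    by_cases h : τ l i j = true
    · obtain ⟨u, hu⟩ := (hτ' l i j).1 h
      refine ⟨u, fun _ c => ?_⟩
      rw [hps l i j (by omega)]
      exact (congrFun hu c).symm
    · exact ⟨0, fun h' => absurd h' h⟩
  choose U hU using hU
  have hZ : ∀ l i (j : Fin m), ∃ z : Fin 3 → Fin 3 → k, ¬ τ l i j = true →
      ∑ c, ∑ c', z c c' * (ps (CR (φ a) (φ b)) (ext τ l i) (Vs l i) j c * Vs l i (j + 1) c' -
        ps (CR (φ a) (φ b)) (ext τ l i) (Vs l i) j c' * Vs l i (j + 1) c) = 1 := by
    intro l i j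
    by_cases h : τ l i j = true
    · exact ⟨0, fun h' => absurd h h'⟩
    · have h1 : ¬ ps (CR (φ a) (φ b)) (ext τ l i) (Vs l i) j ≈ Vs l i (j + 1) := by
        rw [hps l i j (by omega)]
        exact fun h' => h ((hτ' l i j).2 h')
      obtain ⟨z, hz⟩ := exists_z (by
        rw [hps l i j (by omega)]
        exact ns_ne (hspec l i j (by omega)).1) (rep_ne0 _) h1
      exact ⟨z, fun _ => hz⟩
  choose Z hZ using hZ
  have hQ : ∀ l i, ∃ u : k, ∀ c, ps (CR (φ a) (φ b)) (ext τ l i) (Vs l i) m c =
      u * rep (S i) c := by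
    intro l i
    obtain ⟨h1, h2⟩ := hspec l i m le_rfl
    have h3 : pt (φ a) (φ b) (ps (CR (φ a) (φ b)) (τ' l i) (Vs l i) m) = S i := by
      rw [h2, ← hS l i, Finset.sum_range]
      refine Finset.sum_congr rfl fun j _ => ?_
      have h4 : Fin.ofNat (m + 1) j.1 = j := by
        ext
        simp
      simp only [Vs]
      rw [h4]
      exact pt_rep _
    have h4 := rep_pt _ h1
    rw [h3] at h4
    obtain ⟨u, hu⟩ := Setoid.symm h4
    refine ⟨u, fun c => ?_⟩
    rw [hps l i m le_rfl]
    exact (congrFun hu c).symm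
  choose Q hQ using hQ
  let v : Vr ι r n m → k := fun x => match x with
    | .V l j i c => rep (P l j i) c
    | .W l j i c => W l j i c
    | .S i c => rep (S i) c
    | .T i c => T i c
    | .Y l t => y l t
    | .D => (eval₂ φ (fun lt => y lt.1 lt.2) D)⁻¹
    | .U l i j => U l i j
    | .Z l i j c c' => Z l i j c c'
    | .Q l i => Q l i
  have hvec : ∀ l i, vec v l i = Vs l i := fun l i => rfl
  refine ⟨τ, v, fun x => ?_, fun _ _ => rfl, fun _ _ => rfl⟩
  cases x with
  | onV l j i =>
    simp only [ex, v]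
    exact sub_eq_zero.2 (onK_of_ns (ns_rep (P l j i))).2
  | dualV l j i =>
    simp only [ex, v]
    exact sub_eq_zero.2 (hW l j i)
  | onS i =>
    simp only [ex, v]
    exact sub_eq_zero.2 (onK_of_ns (ns_rep (S i))).2
  | dualS i =>
    simp only [ex, v]
    exact sub_eq_zero.2 (hT i)
  | eqG l j e => exact hG l j e
  | det =>
    simp only [ex, v]
    exact sub_eq_zero.2 (mul_inv_cancel₀ hD)
  | step l i j c =>
    simp only [ex]
    rw [hvec]
    split_ifs with h
    · exact sub_eq_zero.2 (hU l i j h c)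
    · exact sub_eq_zero.2 (hZ l i j h)
  | last l i c =>
    simp only [ex]
    rw [hvec]
    exact sub_eq_zero.2 (hQ l i c)

open scoped Classical in
theorem cfg_rev {O : Type} [CommRing O] (a b : O) (G : Fin q → Pol O r n)
    (d : Fin q → Fin r → ℕ) (hG : ∀ e, MHomog (G e) (d e))
    (D : MvPolynomial (ι × Fin n) O) {k : Type} [Field k] (φ : O →+* k)
    (hd : Disc (φ a) (φ b)) (τ : ι → Fin r → Fin m → Bool) (v : Vr ι r n m → k)
    (h : ∀ x, ex a b G D τ k φ v x = 0) :
    ∃ P : ι → Fin (m + 1) → Fin r → Pt (φ a) (φ b),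
      (∀ l j e, vl φ (G e) (fun i => rep (P l j i)) (fun t => v (.Y l t)) = 0) ∧
      (∀ l i, ∑ j, P l j i = pt (φ a) (φ b) (fun c => v (.S i c))) := by
  classical
  have hVn : ∀ l j i, Projective.Nonsingular (CR (φ a) (φ b)) (fun c => v (.V l j i c)) := by
    intro l j i
    refine ns_of_onK hd ⟨?_, ?_⟩
    · intro h0
      have h1 := h (.dualV l j i)
      simp only [ex] at h1
      have h2 : ∀ c, v (.V l j i c) = 0 := fun c => congrFun h0 c
      simp [h2] at h1
    · exact sub_eq_zero.1 (h (.onV l j i))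
  have hSn : ∀ i, Projective.Nonsingular (CR (φ a) (φ b)) (fun c => v (.S i c)) := by
    intro i
    refine ns_of_onK hd ⟨?_, ?_⟩
    · intro h0
      have h1 := h (.dualS i)
      simp only [ex] at h1
      have h2 : ∀ c, v (.S i c) = 0 := fun c => congrFun h0 c
      simp [h2] at h1
    · exact sub_eq_zero.1 (h (.onS i))
  refine ⟨fun l j i => pt (φ a) (φ b) (fun c => v (.V l j i c)), ?_, ?_⟩
  · intro l j e
    have h1 := h (.eqG l j e)
    simp only [ex] at h1
    have h2 : ∀ i, ∃ u : k, ∀ c, rep (pt (φ a) (φ b) (fun c => v (.V l j i c))) c =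
        u * v (.V l j i c) := by
      intro i
      obtain ⟨u, hu⟩ := rep_pt _ (hVn l j i)
      exact ⟨u, fun c => (congrFun hu c).symm⟩
    choose u hu using h2
    have h3 : (fun i => rep (pt (φ a) (φ b) (fun c => v (.V l j i c)))) =
        fun i c => u i * v (.V l j i c) := by
      funext i c
      exact hu i c
    rw [h3, vl_scale _ (G e) (d e) (hG e), h1, mul_zero]
  · intro l i
    have hspec := ps_spec' (a := φ a) (b := φ b) (ext τ l i) (vec v l i) m
      (fun j _ => hVn l _ i) (by
        intro j hj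
        have hext : ext τ l i j = τ l i ⟨j, hj⟩ := by
          unfold ext
          rw [dif_pos hj]
        rw [hext]
        constructor
        · intro ht
          refine ⟨v (.U l i ⟨j, hj⟩), ?_⟩
          funext c
          have h1 := h (.step l i ⟨j, hj⟩ c)
          simp only [ex] at h1
          rw [if_pos ht] at h1
          exact sub_eq_zero.1 h1
        · rintro ht ⟨u, hu⟩
          have h1 := h (.step l i ⟨j, hj⟩ 0)
          simp only [ex] at h1
          rw [if_neg ht] at h1
          have h2 : ∀ c, ps (CR (φ a) (φ b)) (ext τ l i) (vec v l i) j c =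
              u * vec v l i (j + 1) c := fun c => congrFun hu c
          simp only [h2] at h1
          rw [Finset.sum_eq_zero] at h1
          · simp at h1
          · intro c _
            refine Finset.sum_eq_zero fun c' _ => ?_
            ring) m le_rfl
    have h1 : ps (CR (φ a) (φ b)) (ext τ l i) (vec v l i) m ≈ fun c => v (.S i c) := by
      have h2 : ps (CR (φ a) (φ b)) (ext τ l i) (vec v l i) m =
          v (.Q l i) • fun c => v (.S i c) := by
        funext c
        exact sub_eq_zero.1 (h (.last l i c))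
      have h3 : v (.Q l i) ≠ 0 := by
        intro h0
        rw [h0, zero_smul] at h2
        exact ns_ne hspec.1 h2
      exact ⟨Units.mk0 _ h3, h2.symm⟩
    have h4 := pt_of_equiv (a := φ a) (b := φ b) h1
    rw [hspec.2, Finset.sum_range] at h4
    beta_reduce
    rw [← h4]
    refine Finset.sum_congr rfl fun j _ => ?_
    have h5 : Fin.ofNat (m + 1) j.1 = j := by
      ext
      simp
    unfold vec
    rw [h5]

end Pool.Agent.H148N
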