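import Pool.Agent.H148N.Emb
import Pool.Agent.H148L.U
import Pool.Agent.Y213.EC.Trans

set_option autoImplicit false

/-! Fibres of dimension at most `e` over `ℂ`: uniform equations modulo all large primes; equations
over the integers of a number field. -/

namespace Pool.Agent.H148N

open MvPolynomial Cardinal Filter NumberField
open Pool.Agent.Y213.EC Pool.Agent.H901R3.MS
open Pool.Agent.H148L (uI mem_uI notMem_uI uI_max card_le char_zero map_eval')

theorem card_K (K : Type) [Field K] [NumberField K] : #K ≤ ℵ₀ := by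
  refine (Algebra.IsAlgebraic.cardinalMk_le_max ℚ K).trans ?_
  simp

theorem inj_of_charZero (K : Type) [Field K] [NumberField K] (L : Type) [Field L] [CharZero L]
    (f : 𝓞 K →+* L) : Function.Injective f := by
  rw [injective_iff_map_eq_zero]
  intro z hz
  by_contra hz0
  have h1 : ((Ideal.absNorm (Ideal.span {z}) : ℕ) : 𝓞 K) ∈ Ideal.span {z} := Ideal.absNorm_mem _
  rw [Ideal.mem_span_singleton] at h1
  obtain ⟨w, hw⟩ := h1
  have h2 := congrArg f hw
  rw [map_natCast, map_mul, hz, zero_mul, Nat.cast_eq_zero, Ideal.absNorm_eq_zero_iff,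
    Ideal.span_singleton_eq_bot] at h2
  exact hz0 h2

/-- uniform equations modulo all large primes, for one set of coordinates -/
theorem transferJ (K : Type) [Field K] [NumberField K] (r n q : ℕ) (a b : 𝓞 K)
    (G : Fin q → Pol (𝓞 K) r n) (σ : K →+* ℂ) (J : Finset (Fin n))
    (hyp : ∀ V : Fin r → Fin 3 → ℂ, (∀ i, OnK (σ a) (σ b) (V i)) →
      ∃ (D : ℕ) (R : MvPolynomial (Fin n) ℂ), R ≠ 0 ∧ R.support ⊆ Finset.finsuppAntidiag J D ∧
        ∀ x : Fin n → ℂ, x ≠ 0 → (∀ j, vl (toC σ) (G j) V x = 0) → eval x R = 0) :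
    ∃ D₀ : ℕ, ∀ (p : ℕ) [Fact p.Prime], D₀ ≤ p → ∀ (φ : 𝓞 K →+* ZMod p)
      (V : Fin r → Fin 3 → ZMod p), (∀ i, OnK (φ a) (φ b) (V i)) →
      ∃ (D : ℕ) (R : MvPolynomial (Fin n) (ZMod p)), D ≤ D₀ ∧ R ≠ 0 ∧
        R.support ⊆ Finset.finsuppAntidiag J D ∧
        ∀ x : Fin n → ZMod p, x ≠ 0 → (∀ j, vl φ (G j) V x = 0) → eval x R = 0 := by
  classical
  by_contra hcon
  push Not at hcon
  choose p hp hle φ V hV hR using hcon
  haveI : ∀ m, Fact (p m).Prime := hp
  haveI := uI_max p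
  letI : Field ((∀ m, ZMod (p m)) ⧸ uI p) := Ideal.Quotient.field (uI p)
  haveI := char_zero p hle
  set π : (∀ m, ZMod (p m)) →+* ((∀ m, ZMod (p m)) ⧸ uI p) := Ideal.Quotient.mk (uI p) with hπ
  set Φ : 𝓞 K →+* (∀ m, ZMod (p m)) := RingHom.pi φ with hΦ
  have hinj : Function.Injective (π.comp Φ) := inj_of_charZero K _ _
  obtain ⟨ψ, hψ⟩ := embed_over K ((∀ m, ZMod (p m)) ⧸ uI p) (card_K K) (card_le p)
    (IsFractionRing.lift hinj) σ
  have hψ' : ∀ z : 𝓞 K, ψ (π (Φ z)) = σ z := by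
    intro z
    rw [← hψ z]
    congr 1
    exact (IsFractionRing.lift_algebraMap hinj z).symm
  have hψ0 : ∀ x : (∀ m, ZMod (p m)), ψ (π x) = 0 → x ∈ uI p := by
    intro x hx
    rw [← Ideal.Quotient.eq_zero_iff_mem]
    exact (map_eq_zero ψ).1 hx
  set W : Fin r → Fin 3 → (∀ m, ZMod (p m)) := fun i j m => V m i j with hW
  have hVC : ∀ i, OnK (σ a) (σ b) (fun j => ψ (π (W i j))) := by
    intro i
    constructor
    · intro h0
      have h1 : ∀ j, ∀ᶠ m in (hyperfilter ℕ : Filter ℕ), V m i j = 0 := fun j =>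
        (mem_uI p _).1 (hψ0 _ (congrFun h0 j))
      obtain ⟨m, hm⟩ := (Filter.eventually_all.2 h1).exists
      exact (hV m i).1 (funext hm)
    · have h1 : W i 1 ^ 2 * W i 2 = W i 0 ^ 3 + Φ a * W i 0 * W i 2 ^ 2 + Φ b * W i 2 ^ 3 := by
        funext m
        exact (hV m i).2
      have h2 := congrArg (fun x => ψ (π x)) h1
      simp only [map_mul, map_add, map_pow, hψ'] at h2
      exact h2
  obtain ⟨D, RC, hRC0, hRCs, hRC⟩ := hyp (fun i j => ψ (π (W i j))) hVC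
  obtain ⟨μ₀, hμ₀⟩ := exists_coeff_ne_zero hRC0
  letI : Algebra ((∀ m, ZMod (p m)) ⧸ uI p) ℂ := ψ.toAlgebra
  obtain ⟨lam, hlam⟩ : ∃ lam : Module.Dual ((∀ m, ZMod (p m)) ⧸ uI p) ℂ,
      lam (RC.coeff μ₀) ≠ 0 := by
    by_contra hno
    push Not at hno
    exact hμ₀ ((Module.forall_dual_apply_eq_zero_iff ((∀ m, ZMod (p m)) ⧸ uI p) _).1 hno)
  have hlift : ∀ μ : Fin n →₀ ℕ, ∃ x : (∀ m, ZMod (p m)), π x = lam (RC.coeff μ) := fun μ =>
    Ideal.Quotient.mk_surjective _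
  choose c hc using hlift
  set Rt : MvPolynomial (Fin n) (∀ m, ZMod (p m)) := ∑ μ ∈ RC.support, monomial μ (c μ) with hRt
  set Rm : ∀ m, MvPolynomial (Fin n) (ZMod (p m)) := fun m =>
    map (Pi.evalRingHom (fun m => ZMod (p m)) m) Rt with hRm
  have hRmc : ∀ m, Rm m = ∑ μ ∈ RC.support, monomial μ (c μ m) := by
    intro m
    rw [hRm, hRt]
    simp only [map_sum, map_monomial]
    rfl
  have hsupp : ∀ m, (Rm m).support ⊆ Finset.finsuppAntidiag J D := by
    intro m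
    refine Finset.Subset.trans ?_ hRCs
    intro ν hν
    by_contra hno
    rw [mem_support_iff] at hν
    apply hν
    rw [hRmc, coeff_sum]
    refine Finset.sum_eq_zero fun μ hμ => ?_
    rw [coeff_monomial, if_neg]
    rintro rfl
    exact hno hμ
  have hcoef : ∀ m, (Rm m).coeff μ₀ = c μ₀ m := by
    intro m
    rw [hRmc, coeff_sum, Finset.sum_eq_single μ₀]
    · rw [coeff_monomial, if_pos rfl]
    · intro μ _ hμ
      rw [coeff_monomial, if_neg hμ]
    · intro h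
      exact absurd (mem_support_iff.2 hμ₀) h
  have hpt : ∀ m, ∃ x : Fin n → ZMod (p m), Rm m ≠ 0 → D ≤ m →
      x ≠ 0 ∧ (∀ j, vl (φ m) (G j) (V m) x = 0) ∧ eval x (Rm m) ≠ 0 := by
    intro m
    by_cases h : Rm m ≠ 0 ∧ D ≤ m
    · obtain ⟨x, h1, h2, h3⟩ := hR m D (Rm m) h.2 h.1 (hsupp m)
      exact ⟨x, fun _ _ => ⟨h1, h2, h3⟩⟩
    · exact ⟨0, fun h1 h2 => absurd ⟨h1, h2⟩ h⟩
  choose t ht using hpt
  set T : Fin n → (∀ m, ZMod (p m)) := fun k m => t m k with hT
  have hev : ∀ᶠ m in (hyperfilter ℕ : Filter ℕ), t m ≠ 0 ∧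
      (∀ j, vl (φ m) (G j) (V m) (t m) = 0) ∧ eval (t m) (Rm m) ≠ 0 := by
    have h1 : c μ₀ ∉ uI p := by
      intro h
      rw [← Ideal.Quotient.eq_zero_iff_mem] at h
      exact hlam ((hc μ₀).symm.trans h)
    rw [notMem_uI] at h1
    have h2 : ∀ᶠ m in (hyperfilter ℕ : Filter ℕ), D < m :=
      (Nat.hyperfilter_le_atTop) (eventually_gt_atTop _)
    filter_upwards [h1, h2] with m h3 h4
    refine ht m ?_ h4.le
    intro h5
    apply h3
    rw [← hcoef m, h5, coeff_zero]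
  -- the point of the fibre over the complex numbers
  have hne : (fun k => ψ (π (T k))) ≠ 0 := by
    intro h0
    have h1 : ∀ k, ∀ᶠ m in (hyperfilter ℕ : Filter ℕ), t m k = 0 := fun k =>
      (mem_uI p _).1 (hψ0 _ (congrFun h0 k))
    obtain ⟨m, hm, hm'⟩ := ((Filter.eventually_all.2 h1).and hev).exists
    exact hm'.1 (funext hm)
  have hcomp : (ψ.comp π).comp Φ = toC σ := by
    ext z
    exact hψ' z
  have hmem : ∀ l, vl (toC σ) (G l) (fun i j => ψ (π (W i j))) (fun k => ψ (π (T k))) = 0 := by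
    intro l
    have h1 := vl_map Φ (ψ.comp π) (G l) W T
    have h2 : vl Φ (G l) W T ∈ uI p := by
      rw [mem_uI]
      filter_upwards [hev] with m hm
      have h3 := vl_map Φ (Pi.evalRingHom (fun m => ZMod (p m)) m) (G l) W T
      have h4 : (vl Φ (G l) W T) m = vl (φ m) (G l) (V m) (t m) := h3
      rw [h4]
      exact hm.2.1 l
    have h3 : (ψ.comp π) (vl Φ (G l) W T) = 0 := by
      change ψ (π (vl Φ (G l) W T)) = 0
      rw [hπ, Ideal.Quotient.eq_zero_iff_mem.2 h2, map_zero]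
    rw [h3, hcomp] at h1
    exact h1.symm
  have h0 := hRC _ hne hmem
  -- apply the functional
  have h1 : π (eval T Rt) = 0 := by
    have h2 := congrArg lam h0
    rw [map_zero, eval_eq', map_sum] at h2
    rw [map_eval', hRt, map_sum, map_sum, ← h2]
    refine Finset.sum_congr rfl fun μ _ => ?_
    rw [map_monomial, eval_monomial, hc]
    have h3 : RC.coeff μ * ∏ i, ψ (π (T i)) ^ (μ i) =
        (∏ i, π (T i) ^ (μ i)) • RC.coeff μ := by
      rw [Algebra.smul_def, mul_comm, map_prod]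
      congr 1
      refine Finset.prod_congr rfl fun i _ => ?_
      rw [map_pow]
      rfl
    rw [h3, map_smul, smul_eq_mul, mul_comm]
    congr 1
    rw [Finsupp.prod_fintype _ _ (fun _ => pow_zero _)]
  have h2 : eval T Rt ∈ uI p := Ideal.Quotient.eq_zero_iff_mem.1 h1
  rw [mem_uI] at h2
  obtain ⟨m, h3, h4⟩ := (h2.and hev).exists
  apply h4.2.2
  have h5 := map_eval' (Pi.evalRingHom (fun m => ZMod (p m)) m) T Rt
  rw [← h3]
  exact h5.symm

/-- uniform equations modulo all large primes, of one degree -/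
theorem transferAll (K : Type) [Field K] [NumberField K] (r n q : ℕ) (a b : 𝓞 K)
    (G : Fin q → Pol (𝓞 K) r n) (σ : K →+* ℂ) (m : ℕ) (hm : 1 ≤ m)
    (hyp : ∀ V : Fin r → Fin 3 → ℂ, (∀ i, OnK (σ a) (σ b) (V i)) →
      ∀ J : Finset (Fin n), J.card = m →
      ∃ (D : ℕ) (R : MvPolynomial (Fin n) ℂ), R ≠ 0 ∧ R.support ⊆ Finset.finsuppAntidiag J D ∧
        ∀ x : Fin n → ℂ, x ≠ 0 → (∀ j, vl (toC σ) (G j) V x = 0) → eval x R = 0) :
    ∃ D : ℕ, 1 ≤ D ∧ ∀ (p : ℕ) [Fact p.Prime], D ≤ p → ∀ (φ : 𝓞 K →+* ZMod p)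
      (V : Fin r → Fin 3 → ZMod p), (∀ i, OnK (φ a) (φ b) (V i)) →
      ∀ J : Finset (Fin n), J.card = m → ∃ R : MvPolynomial (Fin n) (ZMod p), R ≠ 0 ∧
        R.support ⊆ Finset.finsuppAntidiag J D ∧
        ∀ x : Fin n → ZMod p, (∀ j, vl φ (G j) V x = 0) → eval x R = 0 := by
  classical
  have h1 : ∀ J : Finset (Fin n), ∃ D₀ : ℕ, J.card = m → ∀ (p : ℕ) [Fact p.Prime], D₀ ≤ p →
      ∀ (φ : 𝓞 K →+* ZMod p) (V : Fin r → Fin 3 → ZMod p), (∀ i, OnK (φ a) (φ b) (V i)) →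
      ∃ (D : ℕ) (R : MvPolynomial (Fin n) (ZMod p)), D ≤ D₀ ∧ R ≠ 0 ∧
        R.support ⊆ Finset.finsuppAntidiag J D ∧
        ∀ x : Fin n → ZMod p, x ≠ 0 → (∀ j, vl φ (G j) V x = 0) → eval x R = 0 := by
    intro J
    by_cases hJ : J.card = m
    · obtain ⟨D, hD⟩ := transferJ K r n q a b G σ J (fun V hV => hyp V hV J hJ)
      exact ⟨D, fun _ => hD⟩
    · exact ⟨0, fun h => absurd h hJ⟩
  choose D hD using h1
  refine ⟨∑ J, D J + 1, by omega, fun p hp hle φ V hV J hJ => ?_⟩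
  have h2 : D J ≤ ∑ J, D J := Finset.single_le_sum (fun _ _ => Nat.zero_le _) (Finset.mem_univ J)
  obtain ⟨D', R, h3, h4, h5, h6⟩ := hD J hJ p (by omega) φ V hV
  obtain ⟨j₀, hj₀⟩ : J.Nonempty := Finset.card_pos.1 (by omega)
  set s : ℕ := ∑ J, D J + 1 - D' with hs
  have hs1 : 1 ≤ s := by omega
  have hsupp : (X j₀ ^ s * R).support ⊆ Finset.finsuppAntidiag J (∑ J, D J + 1) := by
    intro ν hν
    rw [X_pow_eq_monomial] at hν
    have h7 := support_mul _ _ hν
    rw [Finset.mem_add] at h7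
    obtain ⟨y, hy, z, hz, rfl⟩ := h7
    have h8 := support_monomial_subset hy
    rw [Finset.mem_singleton] at h8
    have h9 := h5 hz
    rw [Finset.mem_finsuppAntidiag] at h9 ⊢
    subst h8
    constructor
    · simp only [Finsupp.coe_add, Pi.add_apply, Finset.sum_add_distrib, h9.1]
      rw [Finset.sum_eq_single j₀]
      · rw [Finsupp.single_eq_same]
        omega
      · intro k _ hk
        rw [Finsupp.single_eq_of_ne hk]
      · intro h
        exact absurd hj₀ h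
    · refine Finsupp.support_add.trans (Finset.union_subset ?_ h9.2)
      refine Finsupp.support_single_subset.trans ?_
      rw [Finset.singleton_subset_iff]
      exact hj₀
  refine ⟨X j₀ ^ s * R, mul_ne_zero (pow_ne_zero _ (X_ne_zero _)) h4, hsupp, ?_⟩
  intro x hx
  rw [map_mul, map_pow, eval_X]
  by_cases hx0 : x = 0
  · rw [hx0, Pi.zero_apply, zero_pow (by omega), zero_mul]
  · rw [h6 x hx0 hx, mul_zero]

end Pool.Agent.H148N
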