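import Pool.Agent.H148N.Rev
import Pool.Agent.Y213.BD.Final

set_option autoImplicit false

/-! Points with a given sum: uniform equations modulo all large primes. -/

namespace Pool.Agent.H148N

open MvPolynomial Cardinal Filter NumberField WeierstrassCurve
open Pool.Agent.Y213.EC Pool.Agent.H901R3.MS Pool.Agent.Y213.BD
open Pool.Agent.H148L (map_eval')

section ultra

variable (κ : ℕ → Type) [∀ m, Field (κ m)]

/-- the sequences which vanish almost everywhere -/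
def uJ : Ideal (∀ m, κ m) where
  carrier := {f | ∀ᶠ m in (hyperfilter ℕ : Filter ℕ), f m = 0}
  zero_mem' := Filter.Eventually.of_forall fun _ => rfl
  add_mem' {f g} hf hg := by
    filter_upwards [hf, hg] with m h1 h2
    rw [Pi.add_apply, h1, h2, add_zero]
  smul_mem' c f hf := by
    filter_upwards [hf] with m h1
    rw [smul_eq_mul, Pi.mul_apply, h1, mul_zero]

theorem mem_uJ (f : ∀ m, κ m) :
    f ∈ uJ κ ↔ ∀ᶠ m in (hyperfilter ℕ : Filter ℕ), f m = 0 := Iff.rfl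

theorem notMem_uJ (f : ∀ m, κ m) :
    f ∉ uJ κ ↔ ∀ᶠ m in (hyperfilter ℕ : Filter ℕ), f m ≠ 0 := by
  rw [mem_uJ]
  exact Ultrafilter.eventually_not.symm

theorem uJ_max : (uJ κ).IsMaximal := by
  rw [Ideal.isMaximal_iff]
  constructor
  · rw [notMem_uJ]
    exact Filter.Eventually.of_forall fun m => one_ne_zero
  · intro J x hIJ hx hxJ
    rw [notMem_uJ] at hx
    have h1 : 1 - x * (fun m => (x m)⁻¹) ∈ uJ κ := by
      rw [mem_uJ]
      filter_upwards [hx] with m hm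
      rw [Pi.sub_apply, Pi.mul_apply, Pi.one_apply, mul_inv_cancel₀ hm, sub_self]
    have h2 := J.add_mem (hIJ h1) (J.mul_mem_right (fun m => (x m)⁻¹) hxJ)
    rwa [sub_add_cancel] at h2

theorem card_leJ (h : ∀ m, #(κ m) ≤ 𝔠) : #((∀ m, κ m) ⧸ uJ κ) ≤ 𝔠 := by
  refine (Cardinal.mk_le_of_surjective (Ideal.Quotient.mk_surjective (I := uJ κ))).trans ?_
  have h1 : #(∀ m, κ m) ≤ #(ℕ → ℝ) := by
    have h2 : ∀ m, Nonempty (κ m ↪ ℝ) := fun m => by
      rw [← Cardinal.le_def, mk_real]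
      exact h m
    refine Cardinal.mk_le_of_injective
      (f := fun (f : ∀ m, κ m) (m : ℕ) => (h2 m).some (f m)) ?_
    intro f f' hff
    funext m
    exact (h2 m).some.injective (congrFun hff m)
  refine h1.trans ?_
  simp
  rw [mk_real, continuum_power_aleph0]

theorem char_zeroJ (h : ∀ n : ℕ, n ≠ 0 → ∀ᶠ m in (hyperfilter ℕ : Filter ℕ), ((n : ℕ) : κ m) ≠ 0) :
    CharZero ((∀ m, κ m) ⧸ uJ κ) := by
  refine charZero_of_inj_zero fun n hn => ?_
  by_contra hn0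
  have h1 : ((n : ∀ m, κ m)) ∈ uJ κ := by
    rw [← Ideal.Quotient.eq_zero_iff_mem, map_natCast]
    exact hn
  rw [mem_uJ] at h1
  obtain ⟨m, h3, h4⟩ := (h1.and (h n hn0)).exists
  exact h4 h3

end ultra

theorem card_ac (p : ℕ) [Fact p.Prime] : #(AlgebraicClosure (ZMod p)) ≤ 𝔠 := by
  refine (Algebra.IsAlgebraic.cardinalMk_le_max (ZMod p) (AlgebraicClosure (ZMod p))).trans ?_
  refine max_le ?_ aleph0_le_continuum
  exact ((Cardinal.lt_aleph0_of_finite _).le).trans aleph0_le_continuum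

/-- the limit of points of the sets `YS` -/
theorem ys_limit {K : Type} [Field K] [NumberField K] {r n q M : ℕ} (a b : 𝓞 K)
    (G : Fin q → Pol (𝓞 K) r n) (d : Fin q → Fin r → ℕ) (hG : ∀ e, MHomog (G e) (d e))
    (κ : ℕ → Type) [∀ m, Field (κ m)] (φ : ∀ m, 𝓞 K →+* κ m) (χ : 𝓞 K →+* ℂ)
    (hd : Disc (χ a) (χ b)) (ψ : (∀ m, κ m) →+* ℂ) (hψ : ∀ x ∈ uJ κ, ψ x = 0)
    (hχ : ∀ z, ψ (fun m => φ m z) = χ z) (S : ∀ m, Fin r → Pt (φ m a) (φ m b))
    (y : ∀ m, Fin n → κ m)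
    (hy : ∀ᶠ m in (hyperfilter ℕ : Filter ℕ), y m ∈ YS a b G M (φ m) (S m)) :
    (fun t => ψ (fun m => y m t)) ∈ YS a b G M χ
      (fun i => pt (χ a) (χ b) (fun c => ψ (fun m => rep (S m i) c))) := by
  classical
  have hex : ∀ m, ∃ (τ : Unit → Fin r → Fin M → Bool) (v : Vr Unit r n M → κ m),
      y m ∈ YS a b G M (φ m) (S m) → (∀ x, ex a b G 1 τ (κ m) (φ m) v x = 0) ∧
        (∀ i c, v (.S i c) = rep (S m i) c) ∧ ∀ t, v (.Y () t) = y m t := by
    intro m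
    by_cases h : y m ∈ YS a b G M (φ m) (S m)
    · obtain ⟨P, h1, h2⟩ := h
      obtain ⟨τ, v, h3, h4, h5⟩ := ex_rev (ι := Unit) a b G 1 (φ m) (S m) (fun _ => y m)
        (fun _ => P) (fun _ j e => h1 j e) (fun _ i => h2 i) (by simp)
      exact ⟨τ, v, fun _ => ⟨h3, h4, fun t => h5 () t⟩⟩
    · exact ⟨fun _ _ _ => false, 0, fun h' => absurd h' h⟩
  choose τ v hv using hex
  obtain ⟨τ₀, hτ₀⟩ : ∃ τ₀, ∀ᶠ m in (hyperfilter ℕ : Filter ℕ), τ m = τ₀ := by
    by_contra hno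
    push Not at hno
    have h1 : ∀ τ₀, ∀ᶠ m in (hyperfilter ℕ : Filter ℕ), τ m ≠ τ₀ := fun τ₀ => hno τ₀
    obtain ⟨m, hm⟩ := (Filter.eventually_all.2 h1).exists
    exact hm (τ m) rfl
  set Φ : 𝓞 K →+* (∀ m, κ m) := RingHom.pi φ with hΦ
  have hcomp : ψ.comp Φ = χ := by
    ext z
    exact hχ z
  set w : Vr Unit r n M → (∀ m, κ m) := fun x m => v m x with hw
  have hz : ∀ x, ex a b G 1 τ₀ ℂ χ (fun x => ψ (w x)) x = 0 := by
    intro x
    have h1 := ex_nat a b G 1 τ₀ Φ ψ w x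
    rw [hcomp] at h1
    rw [← h1]
    apply hψ
    rw [mem_uJ]
    filter_upwards [hy, hτ₀] with m h2 h3
    have h4 := ex_nat a b G 1 τ₀ Φ (Pi.evalRingHom κ m) w x
    have h5 : (Pi.evalRingHom κ m) (ex a b G 1 τ₀ (∀ m, κ m) Φ w x) =
        (ex a b G 1 τ₀ (∀ m, κ m) Φ w x) m := rfl
    rw [← h5, h4]
    have h6 := (hv m h2).1 x
    rw [h3] at h6
    exact h6
  obtain ⟨P, h1, h2⟩ := cfg_rev a b G d hG 1 χ hd τ₀ (fun x => ψ (w x)) hz
  have h3 : (fun t => ψ (w (.Y () t))) = fun t => ψ (fun m => y m t) := by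
    funext t
    rw [← sub_eq_zero, ← map_sub]
    apply hψ
    rw [mem_uJ]
    filter_upwards [hy] with m h3
    rw [Pi.sub_apply]
    simp only [hw]
    rw [(hv m h3).2.2 t, sub_self]
  have h4 : ∀ i, (fun c => ψ (w (.S i c))) = fun c => ψ (fun m => rep (S m i) c) := by
    intro i
    funext c
    rw [← sub_eq_zero, ← map_sub]
    apply hψ
    rw [mem_uJ]
    filter_upwards [hy] with m h3
    rw [Pi.sub_apply]
    simp only [hw]
    rw [(hv m h3).2.1 i c, sub_self]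
  refine ⟨P (), fun j e => ?_, fun i => ?_⟩
  · rw [← h3]
    exact h1 () j e
  · change ∑ j, P () j i = pt (χ a) (χ b) (fun c => ψ fun m => rep (S m i) c)
    rw [← h4 i]
    exact h2 () i

/-- uniform equations modulo all large primes, for one set of coordinates -/
theorem transferSJ (K : Type) [Field K] [NumberField K] (r n q M : ℕ) (a b : 𝓞 K)
    (G : Fin q → Pol (𝓞 K) r n) (d : Fin q → Fin r → ℕ) (hG : ∀ e, MHomog (G e) (d e))
    (σ : K →+* ℂ) (hd : Disc (toC σ a) (toC σ b)) (J : Finset (Fin n))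
    (hyp : ∀ S : Fin r → Pt (toC σ a) (toC σ b),
      ∃ (D : ℕ) (R : MvPolynomial (Fin n) ℂ), R ≠ 0 ∧ R.support ⊆ Finset.finsuppAntidiag J D ∧
        ∀ x ∈ YS a b G M (toC σ) S, x ≠ 0 → eval x R = 0) :
    ∃ D₀ : ℕ, ∀ (p : ℕ) [Fact p.Prime], D₀ ≤ p → ∀ (φ : 𝓞 K →+* AlgebraicClosure (ZMod p))
      (S : Fin r → Pt (φ a) (φ b)),
      ∃ (D : ℕ) (R : MvPolynomial (Fin n) (AlgebraicClosure (ZMod p))), D ≤ D₀ ∧ R ≠ 0 ∧
        R.support ⊆ Finset.finsuppAntidiag J D ∧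
        ∀ x ∈ YS a b G M φ S, x ≠ 0 → eval x R = 0 := by
  classical
  by_contra hcon
  push Not at hcon
  choose p hp hle φ S hR using hcon
  haveI : ∀ m, Fact (p m).Prime := hp
  set κ : ℕ → Type := fun m => AlgebraicClosure (ZMod (p m)) with hκ
  letI : ∀ m, Field (κ m) := fun m => inferInstanceAs (Field (AlgebraicClosure (ZMod (p m))))
  haveI := uJ_max κ
  letI : Field ((∀ m, κ m) ⧸ uJ κ) := Ideal.Quotient.field (uJ κ)
  haveI : CharZero ((∀ m, κ m) ⧸ uJ κ) := char_zeroJ κ (by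
    intro N hN
    have h2 : ∀ᶠ m in (hyperfilter ℕ : Filter ℕ), N < m :=
      (Nat.hyperfilter_le_atTop) (eventually_gt_atTop N)
    filter_upwards [h2] with m hm h0
    haveI : CharP (κ m) (p m) :=
      charP_of_injective_ringHom (cc (p m)).injective (p m)
    rw [CharP.cast_eq_zero_iff (κ m) (p m)] at h0
    have h5 := Nat.le_of_dvd (Nat.pos_of_ne_zero hN) h0
    have := hle m
    omega)
  set π : (∀ m, κ m) →+* ((∀ m, κ m) ⧸ uJ κ) := Ideal.Quotient.mk (uJ κ) with hπ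
  set Φ : 𝓞 K →+* (∀ m, κ m) := RingHom.pi φ with hΦ
  have hinj : Function.Injective (π.comp Φ) := inj_of_charZero K _ _
  obtain ⟨ψ₀, hψ₀⟩ := embed_over K ((∀ m, κ m) ⧸ uJ κ) (card_K K)
    (card_leJ κ fun m => card_ac (p m)) (IsFractionRing.lift hinj) σ
  set ψ : (∀ m, κ m) →+* ℂ := ψ₀.comp π with hψ
  have hψz : ∀ x ∈ uJ κ, ψ x = 0 := by
    intro x hx
    rw [hψ, RingHom.comp_apply, hπ, Ideal.Quotient.eq_zero_iff_mem.2 hx, map_zero]
  have hψ' : ∀ z : 𝓞 K, ψ (fun m => φ m z) = toC σ z := by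
    intro z
    have h1 := hψ₀ (z : K)
    have h2 : IsFractionRing.lift hinj (z : K) = π (Φ z) := IsFractionRing.lift_algebraMap hinj z
    rw [h2] at h1
    exact h1
  have hψ0 : ∀ x : (∀ m, κ m), ψ x = 0 → x ∈ uJ κ := by
    intro x hx
    rw [← Ideal.Quotient.eq_zero_iff_mem]
    exact (map_eq_zero ψ₀).1 hx
  obtain ⟨D, RC, hRC0, hRCs, hRC⟩ := hyp
    (fun i => pt (toC σ a) (toC σ b) (fun c => ψ (fun m => rep (S m i) c)))
  obtain ⟨μ₀, hμ₀⟩ := exists_coeff_ne_zero hRC0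
  letI : Algebra ((∀ m, κ m) ⧸ uJ κ) ℂ := ψ₀.toAlgebra
  obtain ⟨lam, hlam⟩ : ∃ lam : Module.Dual ((∀ m, κ m) ⧸ uJ κ) ℂ,
      lam (RC.coeff μ₀) ≠ 0 := by
    by_contra hno
    push Not at hno
    exact hμ₀ ((Module.forall_dual_apply_eq_zero_iff ((∀ m, κ m) ⧸ uJ κ) _).1 hno)
  have hlift : ∀ μ : Fin n →₀ ℕ, ∃ x : (∀ m, κ m), π x = lam (RC.coeff μ) := fun μ =>
    Ideal.Quotient.mk_surjective _
  choose c hc using hlift
  set Rt : MvPolynomial (Fin n) (∀ m, κ m) := ∑ μ ∈ RC.support, monomial μ (c μ) with hRt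
  set Rm : ∀ m, MvPolynomial (Fin n) (κ m) := fun m =>
    map (Pi.evalRingHom κ m) Rt with hRm
  have hRmc : ∀ m, Rm m = ∑ μ ∈ RC.support, monomial μ (c μ m) := by
    intro m
    rw [hRm, hRt]
    simp only [map_sum, map_monomial]
    rfl
  have hsupp : ∀ m, (Rm m).support ⊆ Finset.finsuppAntidiag J D := by
    intro m
    refine Finset.Subset.trans ?_ hRCs
    intro ν hν
    by_contra hno
    rw [mem_support_iff] at hν
    apply hν
    rw [hRmc, coeff_sum]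
    refine Finset.sum_eq_zero fun μ hμ => ?_
    rw [coeff_monomial, if_neg]
    rintro rfl
    exact hno hμ
  have hcoef : ∀ m, (Rm m).coeff μ₀ = c μ₀ m := by
    intro m
    rw [hRmc, coeff_sum, Finset.sum_eq_single μ₀]
    · rw [coeff_monomial, if_pos rfl]
    · intro μ _ hμ
      rw [coeff_monomial, if_neg hμ]
    · intro h
      exact absurd (mem_support_iff.2 hμ₀) h
  have hpt : ∀ m, ∃ x : Fin n → κ m, Rm m ≠ 0 → D ≤ m →
      x ∈ YS a b G M (φ m) (S m) ∧ x ≠ 0 ∧ eval x (Rm m) ≠ 0 := by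
    intro m
    by_cases h : Rm m ≠ 0 ∧ D ≤ m
    · obtain ⟨x, h1, h2, h3⟩ := hR m D (Rm m) h.2 h.1 (hsupp m)
      exact ⟨x, fun _ _ => ⟨h1, h2, h3⟩⟩
    · exact ⟨0, fun h1 h2 => absurd ⟨h1, h2⟩ h⟩
  choose t ht using hpt
  have hev : ∀ᶠ m in (hyperfilter ℕ : Filter ℕ), t m ∈ YS a b G M (φ m) (S m) ∧
      t m ≠ 0 ∧ eval (t m) (Rm m) ≠ 0 := by
    have h1 : c μ₀ ∉ uJ κ := by
      intro h
      rw [← Ideal.Quotient.eq_zero_iff_mem] at h
      exact hlam ((hc μ₀).symm.trans h)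
    rw [notMem_uJ] at h1
    have h2 : ∀ᶠ m in (hyperfilter ℕ : Filter ℕ), D < m :=
      (Nat.hyperfilter_le_atTop) (eventually_gt_atTop _)
    filter_upwards [h1, h2] with m h3 h4
    refine ht m ?_ h4.le
    intro h5
    apply h3
    rw [← hcoef m, h5, coeff_zero]
  -- the point over the complex numbers
  have hne : (fun k => ψ (fun m => t m k)) ≠ 0 := by
    intro h0
    have h1 : ∀ k, ∀ᶠ m in (hyperfilter ℕ : Filter ℕ), t m k = 0 := fun k =>
      (mem_uJ κ _).1 (hψ0 _ (congrFun h0 k))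
    obtain ⟨m, hm, hm'⟩ := ((Filter.eventually_all.2 h1).and hev).exists
    exact hm'.2.1 (funext hm)
  have hmem := ys_limit (M := M) a b G d hG κ φ (toC σ) hd ψ hψz hψ' S t
    (hev.mono fun m hm => hm.1)
  have h0 := hRC _ hmem hne
  set T : Fin n → (∀ m, κ m) := fun k m => t m k with hT
  -- apply the functional
  have h1 : π (eval T Rt) = 0 := by
    have h2 := congrArg lam h0
    rw [map_zero, eval_eq', map_sum] at h2
    rw [map_eval', hRt, map_sum, map_sum, ← h2]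
    refine Finset.sum_congr rfl fun μ _ => ?_
    rw [map_monomial, eval_monomial, hc]
    have h3 : RC.coeff μ * ∏ i, ψ (fun m => t m i) ^ (μ i) =
        (∏ i, π (T i) ^ (μ i)) • RC.coeff μ := by
      rw [Algebra.smul_def, mul_comm, map_prod]
      congr 1
      refine Finset.prod_congr rfl fun i _ => ?_
      rw [map_pow]
      rfl
    rw [h3, map_smul, smul_eq_mul, mul_comm]
    congr 1
    rw [Finsupp.prod_fintype _ _ (fun _ => pow_zero _)]
  have h2 : eval T Rt ∈ uJ κ := Ideal.Quotient.eq_zero_iff_mem.1 h1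
  rw [mem_uJ] at h2
  obtain ⟨m, h3, h4⟩ := (h2.and hev).exists
  apply h4.2.2
  have h5 := map_eval' (Pi.evalRingHom κ m) T Rt
  rw [← h3]
  exact h5.symm

end Pool.Agent.H148N
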